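import Mathlib

set_option autoImplicit false

namespace Pool.Agent.H674Z.Reg

open SimpleGraph Finset

/-- descendant number `i` at depth `d` in the dyadic tree -/
def desc (v : ℕ × ℕ) (d i : ℕ) : ℕ × ℕ := (v.1 + d, 2 ^ d * v.2 + i)

lemma desc_zero (v : ℕ × ℕ) : desc v 0 0 = v := by simp [desc]

lemma desc_desc (v : ℕ × ℕ) (d i d' i' : ℕ) :
    desc (desc v d i) d' i' = desc v (d + d') (2 ^ d' * i + i') := by
  simp only [desc, Prod.mk.injEq]
  constructor
  · ring
  · ring

lemma idx_lt {d i d' i' : ℕ} (hi : i < 2 ^ d) (hi' : i' < 2 ^ d') :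
    2 ^ d' * i + i' < 2 ^ (d + d') := by
  have : 2 ^ d' * (i + 1) ≤ 2 ^ d' * 2 ^ d := Nat.mul_le_mul_left _ hi
  rw [pow_add]; nlinarith

lemma idx_div {d i i' : ℕ} (hi' : i' < 2 ^ d) : (2 ^ d * i + i') / 2 ^ d = i := by
  rw [Nat.mul_add_div (by positivity), Nat.div_eq_of_lt hi', add_zero]

lemma desc_succ (v : ℕ × ℕ) (d i : ℕ) :
    desc v (d + 1) i = desc (desc v d (i / 2)) 1 (i % 2) := by
  rw [desc_desc, pow_one, Nat.div_add_mod]

lemma lip_desc {W : Type*} {H : SimpleGraph W} (hH : H.Connected) (g : ℕ × ℕ → W) (L : ℕ)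
    (hg : ∀ v e, e < 2 → H.dist (g v) (g (desc v 1 e)) ≤ L) (v : ℕ × ℕ) :
    ∀ d i, i < 2 ^ d → H.dist (g v) (g (desc v d i)) ≤ L * d := by
  intro d
  induction d with
  | zero =>
    intro i hi
    have : i = 0 := by simpa using hi
    subst this
    simp [desc_zero]
  | succ d ih =>
    intro i hi
    have h1 : i / 2 < 2 ^ d := by
      rw [pow_succ] at hi; omega
    have h2 := ih _ h1
    have h3 := hg (desc v d (i / 2)) (i % 2) (Nat.mod_lt _ (by norm_num))
    rw [← desc_succ] at h3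
    have := hH.dist_triangle (u := g v) (v := g (desc v d (i / 2))) (w := g (desc v (d + 1) i))
    nlinarith

lemma ball_card {W : Type*} {H : SimpleGraph W} (hH : H.Connected) (Δ : ℕ)
    (hΔ : ∀ v, (H.neighborSet v).encard ≤ Δ) (t : W) :
    ∀ r : ℕ, ∃ F : Finset W, F.card ≤ (Δ + 1) ^ r ∧ ∀ w, H.dist t w ≤ r → w ∈ F := by
  classical
  have hfin : ∀ v, (H.neighborSet v).Finite := fun v =>
    Set.finite_of_encard_le_coe (hΔ v)
  have hcard : ∀ v, (hfin v).toFinset.card ≤ Δ := fun v => by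
    have := hΔ v
    rw [(hfin v).encard_eq_coe_toFinset_card] at this
    exact_mod_cast this
  intro r
  induction r with
  | zero =>
    refine ⟨{t}, by simp, fun w hw => ?_⟩
    have : H.dist t w = 0 := by omega
    rw [hH.dist_eq_zero_iff] at this
    simp [this]
  | succ r ih =>
    obtain ⟨F, hF, hF'⟩ := ih
    refine ⟨F.biUnion fun w => insert w (hfin w).toFinset, ?_, fun w hw => ?_⟩
    · calc _ ≤ F.card * (Δ + 1) := by
            apply card_biUnion_le_card_mul
            intro w _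
            exact (card_insert_le _ _).trans (by have := hcard w; omega)
        _ ≤ (Δ + 1) ^ r * (Δ + 1) := Nat.mul_le_mul_right _ hF
        _ = _ := by ring
    · obtain ⟨p, hp⟩ := hH.exists_walk_length_eq_dist w t
      rw [H.dist_comm] at hp
      cases p with
      | nil =>
        exact mem_biUnion.2 ⟨t, hF' _ (by simp), by simp⟩
      | @cons _ w' _ h q =>
        have h1 : H.dist t w' ≤ r := by
          have := H.dist_le q
          rw [H.dist_comm] at this
          simp only [Walk.length_cons] at hp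
          omega
        refine mem_biUnion.2 ⟨w', hF' _ h1, ?_⟩
        simp [h.symm]

lemma exists_mid {W : Type*} {H : SimpleGraph W} {u v : W} (p : H.Walk u v) :
    ∀ σ, σ ≤ p.length → ∃ s ∈ p.support, ∃ (q₁ : H.Walk u s) (q₂ : H.Walk s v),
      q₁.length = σ ∧ q₂.length + σ = p.length := by
  induction p with
  | nil =>
    intro σ hσ
    exact ⟨_, by simp, .nil, .nil, by simpa using hσ.antisymm' (by simp), by simpa using hσ⟩
  | @cons a b c h p ih =>
    intro σ hσ
    cases σ with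
    | zero => exact ⟨a, by simp, .nil, .cons h p, rfl, rfl⟩
    | succ σ =>
      obtain ⟨s, hs, q₁, q₂, h1, h2⟩ := ih σ (by simpa using hσ)
      exact ⟨s, by simp [hs], .cons h q₁, q₂, by simp [h1], by simp; omega⟩

/-- being cut off from `t` by `s` -/
def Cut {W : Type*} (H : SimpleGraph W) (t s w : W) : Prop :=
  ∀ q : H.Walk t w, s ∈ q.support

lemma cut_iff {W : Type*} {H : SimpleGraph W} (hH : H.Connected) (t s : W) {w w' : W} {L : ℕ}
    (h1 : L < H.dist w s) (h2 : H.dist w w' ≤ L) : Cut H t s w ↔ Cut H t s w' := by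
  classical
  obtain ⟨g, hg⟩ := hH.exists_walk_length_eq_dist w w'
  have hs : s ∉ g.support := fun hs => by
    have := H.dist_le (g.takeUntil s hs)
    have := g.length_takeUntil_le_length hs
    omega
  constructor
  · intro h q
    have := h (q.append g.reverse)
    rw [Walk.mem_support_append_iff] at this
    rcases this with h | h
    · exact h
    · exact absurd (by simpa using h) hs
  · intro h q
    have := h (q.append g)
    rw [Walk.mem_support_append_iff] at this
    rcases this with h | h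
    · exact h
    · exact absurd h hs

lemma exists_cut {W : Type*} {T : SimpleGraph W} (hT : T.IsTree) (t w : W) (σ : ℕ)
    (hσ : σ ≤ T.dist t w) : ∃ s, T.dist t s = σ ∧ Cut T t s w := by
  classical
  obtain ⟨p, hp, hl⟩ := hT.connected.exists_path_of_dist t w
  obtain ⟨s, hs, q₁, q₂, h1, h2⟩ := exists_mid p σ (by omega)
  refine ⟨s, ?_, fun q => ?_⟩
  · have := T.dist_le q₁
    have := T.dist_le q₂
    have := hT.connected.dist_triangle (u := t) (v := s) (w := w)
    omega
  · have : q.toPath = ⟨p, hp⟩ := (hT.isAcyclic.subsingleton_path _ _).elim _ _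
    have h3 : s ∈ (q.toPath : T.Walk t w).support := by rw [this]; exact hs
    exact q.support_toPath_subset_support h3

/-- If a predicate is passed on to the children outside `S` and `S` is sparse, it is passed on
to some descendant at each depth. -/
lemma pass_down (S : Set (ℕ × ℕ)) (Q : ℕ × ℕ → Prop) (ρ : ℕ) (hρ : 0 < ρ)
    (hQ : ∀ u, u ∉ S → ∀ e, e < 2 → (Q u ↔ Q (desc u 1 e)))
    (hS : ∀ x, ∃ i < 2 ^ ρ, ∀ d ≤ ρ, ∀ j < 2 ^ d, desc (desc x ρ i) d j ∉ S) :
    ∀ D x, (∀ d ≤ ρ, ∀ j < 2 ^ d, desc x d j ∉ S) → ∃ i < 2 ^ D, (Q x ↔ Q (desc x D i)) := by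
  have hfree : ∀ x, (∀ d ≤ ρ, ∀ j < 2 ^ d, desc x d j ∉ S) →
      ∀ d ≤ ρ, ∀ j < 2 ^ d, (Q x ↔ Q (desc x d j)) := by
    intro x hx d
    induction d with
    | zero =>
      intro _ j hj
      have : j = 0 := by simpa using hj
      subst this
      simp [desc_zero]
    | succ d ih =>
      intro hd j hj
      have h1 : j / 2 < 2 ^ d := by
        rw [pow_succ] at hj; omega
      rw [ih (by omega) _ h1, desc_succ]
      exact hQ _ (hx d (by omega) _ h1) _ (Nat.mod_lt _ (by norm_num))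
  intro D
  induction D using Nat.strong_induction_on with
  | _ D ih =>
    intro x hx
    by_cases hD : D ≤ ρ
    · exact ⟨0, by positivity, hfree x hx D hD 0 (by positivity)⟩
    · obtain ⟨D', rfl⟩ : ∃ D', D = ρ + D' := ⟨D - ρ, by omega⟩
      obtain ⟨i, hi, hi'⟩ := hS x
      obtain ⟨j, hj, hj'⟩ := ih D' (by omega) _ hi'
      refine ⟨2 ^ D' * i + j, idx_lt hi hj, ?_⟩
      rw [← desc_desc, ← hj']
      exact hfree x hx ρ le_rfl i hi

lemma sparse_free (S : Set (ℕ × ℕ)) (ρ : ℕ)
    (hS : ∀ (x : ℕ × ℕ) (F : Finset (ℕ × ℕ)),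
      (∀ u ∈ F, u ∈ S ∧ ∃ d ≤ 2 * ρ, ∃ i < 2 ^ d, u = desc x d i) → F.card < 2 ^ ρ) :
    ∀ x, ∃ i < 2 ^ ρ, ∀ d ≤ ρ, ∀ j < 2 ^ d, desc (desc x ρ i) d j ∉ S := by
  classical
  intro x
  by_contra hcon
  push Not at hcon
  choose! d hd j hj hS' using hcon
  have hinj : Set.InjOn (fun i => desc (desc x ρ i) (d i) (j i)) (range (2 ^ ρ) : Finset ℕ) := by
    intro i hi i' hi' h
    have hi : i < 2 ^ ρ := by simpa using hi
    have hi' : i' < 2 ^ ρ := by simpa using hi'
    simp only [desc, Prod.mk.injEq] at h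
    obtain ⟨h1, h2⟩ := h
    have h3 : d i = d i' := by omega
    have h4 := idx_div (i := 2 ^ ρ * x.2 + i) (hj i hi)
    have h5 := idx_div (i := 2 ^ ρ * x.2 + i') (hj i' hi')
    rw [h2, h3, h5] at h4
    omega
  have := hS x ((range (2 ^ ρ)).image fun i => desc (desc x ρ i) (d i) (j i)) (by
    intro u hu
    obtain ⟨i, hi, rfl⟩ := mem_image.1 hu
    have hi : i < 2 ^ ρ := by simpa using hi
    refine ⟨hS' i hi, ρ + d i, by have := hd i hi; omega, _, idx_lt hi (hj i hi), ?_⟩
    rw [desc_desc])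
  rw [card_image_of_injOn hinj, card_range] at this
  exact lt_irrefl _ this

section
variable {W : Type*} {T : SimpleGraph W} (hT : T.IsTree) (a : ℕ × ℕ → W) (L ρ : ℕ)
  (hv : ∀ v e, e < 2 → T.dist (a v) (a (desc v 1 e)) ≤ L)
  (hh : ∀ n k, T.dist (a (n, k)) (a (n, k + 1)) ≤ L) (hρ : 0 < ρ)
  (hS : ∀ (s : W) (x : ℕ × ℕ) (F : Finset (ℕ × ℕ)),
      (∀ u ∈ F, T.dist (a u) s ≤ L ∧ ∃ d ≤ 2 * ρ, ∃ i < 2 ^ d, u = desc x d i) → F.card < 2 ^ ρ)
include hT hv hh hρ hS

lemma row (v : ℕ × ℕ) (D : ℕ) :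
    ∃ i < 2 ^ D, T.dist (a v) (a (desc v D i)) ≤ L * (ρ + 2) + 1 := by
  by_contra hcon
  push Not at hcon
  have hc := hT.connected
  obtain ⟨s, hs, hcut⟩ := exists_cut hT (a v) (a (desc v D 0)) (L * (ρ + 1) + 1) (by
    have := hcon 0 (by positivity); nlinarith)
  have hrow : ∀ i < 2 ^ D, Cut T (a v) s (a (desc v D i)) := by
    intro i
    induction i with
    | zero => exact fun _ => hcut
    | succ i ih =>
      intro hi
      have h1 := hcon i (by omega)
      have h2 := hc.dist_triangle (u := a v) (v := s) (w := a (desc v D i))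
      rw [T.dist_comm (u := s)] at h2
      refine (cut_iff hc _ _ (L := L) (by nlinarith) ?_).1 (ih (by omega))
      exact hh _ _
  obtain ⟨i, hi, hi'⟩ := pass_down {u | T.dist (a u) s ≤ L} (fun u => Cut T (a v) s (a u)) ρ hρ
    (fun u hu e he => cut_iff hc _ _ (L := L) (by simpa using hu) (hv u e he))
    (sparse_free _ ρ (hS s)) D v (by
      intro d hd j hj h
      have h : T.dist (a (desc v d j)) s ≤ L := h
      have h1 := lip_desc hc a L hv v d j hj
      have h2 := hc.dist_triangle (u := a v) (v := a (desc v d j)) (w := s)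
      have h3 : L * d ≤ L * ρ := Nat.mul_le_mul_left _ hd
      nlinarith)
  have := hi'.2 (hrow i hi) .nil
  simp only [Walk.support_nil, List.mem_singleton] at this
  rw [this] at hs
  simp at hs

open Classical in
lemma many (v : ℕ × ℕ) (h : ℕ) :
    h ≤ ((range (2 ^ h)).filter fun i =>
      T.dist (a v) (a (desc v h i)) ≤ 2 * (L * (ρ + 2) + 1) + L).card ^ 2 := by
  have hc := hT.connected
  set F := (range (2 ^ h)).filter fun i =>
      T.dist (a v) (a (desc v h i)) ≤ 2 * (L * (ρ + 2) + 1) + L with hF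
  have key : ∀ δ < h, ∃ p ∈ F ×ˢ F, p.1 / 2 ^ (h - δ) = p.2 / 2 ^ (h - δ) ∧
      p.1 / 2 ^ (h - δ - 1) ≠ p.2 / 2 ^ (h - δ - 1) := by
    intro δ hδ
    obtain ⟨m, rfl⟩ : ∃ m, h = δ + 1 + m := ⟨h - δ - 1, by omega⟩
    obtain ⟨i, hi, hi'⟩ := row hT a L ρ hv hh hρ hS v δ
    have hj : ∀ e < 2, ∃ j < 2 ^ m, 2 ^ m * (2 * i + e) + j ∈ F := by
      intro e he
      obtain ⟨j, hj, hj'⟩ := row hT a L ρ hv hh hρ hS (desc (desc v δ i) 1 e) m
      refine ⟨j, hj, ?_⟩
      have h1 := hv (desc v δ i) e he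
      have h2 := hc.dist_triangle (u := a v) (v := a (desc v δ i))
        (w := a (desc (desc v δ i) 1 e))
      have h3 := hc.dist_triangle (u := a v) (v := a (desc (desc v δ i) 1 e))
        (w := a (desc (desc (desc v δ i) 1 e) m j))
      have h4 : desc (desc (desc v δ i) 1 e) m j = desc v (δ + 1 + m) (2 ^ m * (2 * i + e) + j) := by
        rw [desc_desc v, desc_desc, pow_one]
      rw [hF, mem_filter, mem_range, ← h4]
      refine ⟨?_, by omega⟩
      have := idx_lt (idx_lt (d' := 1) (i' := e) hi (by simpa using he)) hj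
      simpa using this
    obtain ⟨j0, hj0, hj0'⟩ := hj 0 (by norm_num)
    obtain ⟨j1, hj1, hj1'⟩ := hj 1 (by norm_num)
    refine ⟨(_, _), mem_product.2 ⟨hj0', hj1'⟩, ?_, ?_⟩
    · have : δ + 1 + m - δ = m + 1 := by omega
      simp only [this, pow_succ, ← Nat.div_div_eq_div_mul, idx_div hj0, idx_div hj1]
      omega
    · have : δ + 1 + m - δ - 1 = m := by omega
      simp only [this, idx_div hj0, idx_div hj1]
      omega
  choose! p hp hp1 hp2 using key
  have hlt : ∀ δ δ', δ < δ' → δ' < h → p δ ≠ p δ' := by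
    intro δ δ' h1 h2 h3
    apply hp2 δ (by omega)
    obtain ⟨m, hm⟩ : ∃ m, h - δ - 1 = h - δ' + m := ⟨h - δ - 1 - (h - δ'), by omega⟩
    rw [hm, pow_add, ← Nat.div_div_eq_div_mul, ← Nat.div_div_eq_div_mul, h3, hp1 δ' h2]
  have := card_le_card_of_injOn (s := range h) (t := F ×ˢ F) p
    (fun δ hδ => hp δ (by simpa using hδ)) (by
      intro δ hδ δ' hδ' he
      have hδ : δ < h := by simpa using hδ
      have hδ' : δ' < h := by simpa using hδ'
      by_contra hne
      rcases lt_or_gt_of_ne hne with h1 | h1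
      · exact hlt _ _ h1 hδ' he
      · exact hlt _ _ h1 hδ he.symm)
  rw [card_range, card_product] at this
  rwa [sq]

open Classical in
lemma iter (N : ℕ) (v : ℕ × ℕ) (m : ℕ) :
    N ^ m ≤ ((range (2 ^ (m * N ^ 2))).filter fun i =>
      T.dist (a v) (a (desc v (m * N ^ 2) i)) ≤ m * (2 * (L * (ρ + 2) + 1) + L)).card := by
  have hc := hT.connected
  set c := 2 * (L * (ρ + 2) + 1) + L with hcdef
  induction m with
  | zero =>
    rw [pow_zero]
    exact card_pos.2 ⟨0, by simp [desc_zero]⟩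
  | succ m ih =>
    set F := (range (2 ^ (m * N ^ 2))).filter fun i =>
      T.dist (a v) (a (desc v (m * N ^ 2) i)) ≤ m * c with hF
    set G : ℕ → Finset ℕ := fun i => (range (2 ^ (N ^ 2))).filter fun j =>
      T.dist (a (desc v (m * N ^ 2) i)) (a (desc (desc v (m * N ^ 2) i) (N ^ 2) j)) ≤ c with hG
    have hGc : ∀ i, N ≤ (G i).card := fun i =>
      (pow_le_pow_iff_left₀ (by positivity) (by positivity) two_ne_zero).1
        (many hT a L ρ hv hh hρ hS (desc v (m * N ^ 2) i) (N ^ 2))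
    have h1 : N ^ (m + 1) ≤ (F.sigma G).card := by
      rw [card_sigma]
      calc N ^ (m + 1) = N ^ m * N := pow_succ _ _
        _ ≤ F.card * N := Nat.mul_le_mul_right _ ih
        _ = ∑ _i ∈ F, N := by simp
        _ ≤ _ := sum_le_sum fun i _ => hGc i
    refine h1.trans (card_le_card_of_injOn (fun p => 2 ^ (N ^ 2) * p.1 + p.2) ?_ ?_)
    · rintro ⟨i, j⟩ hp
      simp only [coe_sigma, Set.mem_sigma_iff, mem_coe, hF, hG, mem_filter, mem_range] at hp
      obtain ⟨⟨hi, hi'⟩, hj, hj'⟩ := hp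
      simp only [coe_filter, mem_range, Set.mem_ofPred_eq]
      have e : (m + 1) * N ^ 2 = m * N ^ 2 + N ^ 2 := by ring
      rw [e, ← desc_desc]
      refine ⟨idx_lt hi hj, ?_⟩
      have h2 := hc.dist_triangle (u := a v) (v := a (desc v (m * N ^ 2) i))
        (w := a (desc (desc v (m * N ^ 2) i) (N ^ 2) j))
      nlinarith
    · rintro ⟨i, j⟩ hp ⟨i', j'⟩ hp' he
      simp only [coe_sigma, Set.mem_sigma_iff, mem_coe, hF, hG, mem_filter, mem_range] at hp hp'
      have he : 2 ^ (N ^ 2) * i + j = 2 ^ (N ^ 2) * i' + j' := he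
      have h4 := idx_div (i := i) hp.2.1
      have h5 := idx_div (i := i') hp'.2.1
      rw [he, h5] at h4
      subst h4
      have : j = j' := by omega
      subst this
      rfl

end

end Pool.Agent.H674Z.Reg
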