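import Pool.Agent.H674Z.RegDefs
import Pool.Agent.H674Z.RegCore

set_option autoImplicit false

namespace Pool.Agent.H674Z.Reg

open SimpleGraph Finset UpperHalfPlane

/-- the abstract combinatorial theorem -/
theorem core {W U : Type*} {T : SimpleGraph W} {Y : SimpleGraph U} (hT : T.IsTree)
    (hTd : BddDeg T) (hY : Y.Connected) (hYd : BddDeg Y) (hs : SubexpGrowth Y)
    (a : ℕ × ℕ → W) (c : ℕ × ℕ → U) (L K : ℕ)
    (hv : ∀ v e, e < 2 → T.dist (a v) (a (desc v 1 e)) ≤ L)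
    (hh : ∀ n k, T.dist (a (n, k)) (a (n, k + 1)) ≤ L)
    (hc : ∀ v e, e < 2 → Y.dist (c v) (c (desc v 1 e)) ≤ L)
    (hK : ∀ (t : W) (y : U) (F : Finset (ℕ × ℕ)), (∀ u ∈ F, a u = t ∧ c u = y) → F.card ≤ K) :
    False := by
  classical
  obtain ⟨Δ, hΔ⟩ := hTd
  obtain ⟨Δ', hΔ'⟩ := hYd
  have hM : ∀ ε : ℝ, 0 < ε → ∃ C : ℝ, 0 ≤ C ∧ ∀ (s : W) (x : ℕ × ℕ) (r R : ℕ) (F : Finset (ℕ × ℕ)),
      (∀ u ∈ F, T.dist s (a u) ≤ r ∧ ∃ d ≤ R, ∃ i < 2 ^ d, u = desc x d i) →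
        (F.card : ℝ) ≤ C * ((Δ + 1 : ℕ) : ℝ) ^ r * Real.exp (ε * R) := by
    intro ε hε
    obtain ⟨C, hC⟩ := hs (ε / (L + 1)) (by positivity)
    refine ⟨K * max C 0, by positivity, fun s x r R F hF => ?_⟩
    obtain ⟨B, hB, hB'⟩ := ball_card hT.connected Δ hΔ s r
    obtain ⟨B', -, hB''⟩ := ball_card hY Δ' hΔ' (c x) (L * R)
    set B2 := B'.filter fun y => Y.dist (c x) y ≤ L * R with hB2
    have h1 : (B2.card : ℝ) ≤ max C 0 * Real.exp (ε * R) := by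
      have h2 := hC (c x) ((L * R : ℕ) : ℝ) (by positivity)
      have h3 : ({y' | (Y.dist (c x) y' : ℝ) ≤ ((L * R : ℕ) : ℝ)} : Set U) = B2 := by
        ext y
        simp only [Set.mem_ofPred_eq, Nat.cast_le, hB2, coe_filter]
        exact ⟨fun h => ⟨hB'' y h, h⟩, fun h => h.2⟩
      rw [h3, Set.ncard_coe_finset] at h2
      refine h2.trans ?_
      have h4 : ε / (L + 1) * ((L * R : ℕ) : ℝ) ≤ ε * R := by
        rw [div_mul_eq_mul_div, div_le_iff₀ (by positivity)]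
        push_cast
        have : (0 : ℝ) ≤ ε * R := by positivity
        nlinarith
      have h5 := Real.exp_le_exp.2 h4
      have h6 := Real.exp_pos (ε / (L + 1) * ((L * R : ℕ) : ℝ))
      calc _ ≤ max C 0 * Real.exp (ε / (L + 1) * ((L * R : ℕ) : ℝ)) := by
            gcongr; exact le_max_left _ _
        _ ≤ _ := by gcongr
    have h2 : F.card ≤ K * (B ×ˢ B2).card := by
      apply card_le_mul_card_image_of_maps_to (f := fun u => (a u, c u))
      · intro u hu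
        obtain ⟨h1, d, hd, i, hi, rfl⟩ := hF u hu
        have h3 := lip_desc hY c L hc x d i hi
        have h4 : L * d ≤ L * R := Nat.mul_le_mul_left _ hd
        refine mem_product.2 ⟨hB' _ h1, ?_⟩
        simp only [hB2, mem_filter]
        exact ⟨hB'' _ (by omega), by omega⟩
      · rintro ⟨t, y⟩ _
        apply hK t y
        intro u hu
        simpa using (mem_filter.1 hu).2
    rw [card_product] at h2
    have h3 : (F.card : ℝ) ≤ K * (B.card * B2.card) := by exact_mod_cast h2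
    have h4 : (B.card : ℝ) ≤ ((Δ + 1 : ℕ) : ℝ) ^ r := by exact_mod_cast hB
    calc (F.card : ℝ) ≤ K * (B.card * B2.card) := h3
      _ ≤ K * (((Δ + 1 : ℕ) : ℝ) ^ r * (max C 0 * Real.exp (ε * R))) := by gcongr
      _ = _ := by ring
  -- choice of ρ
  have hexp : ∀ C : ℝ, ∃ m : ℕ, 0 < m ∧ C < (4 / 3 : ℝ) ^ m := by
    intro C
    obtain ⟨m, hm⟩ := pow_unbounded_of_one_lt C (by norm_num : (1 : ℝ) < 4 / 3)
    refine ⟨m + 1, by omega, hm.trans_le ?_⟩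
    exact pow_le_pow_right₀ (by norm_num) (by omega)
  have hlog : 0 < Real.log (3 / 2) := Real.log_pos (by norm_num)
  obtain ⟨C₁, hC₁, hM₁⟩ := hM (Real.log (3 / 2) / 2) (by positivity)
  obtain ⟨ρ, hρ, hρ'⟩ := hexp (C₁ * ((Δ + 1 : ℕ) : ℝ) ^ L)
  have hS : ∀ (s : W) (x : ℕ × ℕ) (F : Finset (ℕ × ℕ)),
      (∀ u ∈ F, T.dist (a u) s ≤ L ∧ ∃ d ≤ 2 * ρ, ∃ i < 2 ^ d, u = desc x d i) →
        F.card < 2 ^ ρ := by
    intro s x F hF
    have h1 := hM₁ s x L (2 * ρ) F (fun u hu => ⟨by rw [T.dist_comm]; exact (hF u hu).1, (hF u hu).2⟩)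
    have h2 : Real.exp (Real.log (3 / 2) / 2 * ((2 * ρ : ℕ) : ℝ)) = (3 / 2 : ℝ) ^ ρ := by
      rw [show Real.log (3 / 2) / 2 * ((2 * ρ : ℕ) : ℝ) = ρ * Real.log (3 / 2) by push_cast; ring,
        Real.exp_nat_mul, Real.exp_log (by norm_num)]
    rw [h2] at h1
    have h3 : (F.card : ℝ) < (2 : ℝ) ^ ρ := by
      calc (F.card : ℝ) ≤ _ := h1
        _ < (4 / 3 : ℝ) ^ ρ * (3 / 2 : ℝ) ^ ρ := by gcongr
        _ = 2 ^ ρ := by rw [← mul_pow]; norm_num
    exact_mod_cast h3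
  set r := 2 * (L * (ρ + 2) + 1) + L with hr
  set N := 2 * (Δ + 1) ^ r with hN
  have hNpos : 0 < N := by positivity
  obtain ⟨C₂, hC₂, hM₂⟩ := hM (Real.log (3 / 2) / (N ^ 2 : ℕ)) (by positivity)
  obtain ⟨m, -, hm⟩ := hexp C₂
  have h1 := iter hT a L ρ hv hh hρ hS N (0, 0) m
  set F := (range (2 ^ (m * N ^ 2))).filter fun i =>
      T.dist (a (0, 0)) (a (desc (0, 0) (m * N ^ 2) i)) ≤ m * r with hF
  have h2 := hM₂ (a (0, 0)) (0, 0) (m * r) (m * N ^ 2) (F.image (desc (0, 0) (m * N ^ 2))) (by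
    intro u hu
    obtain ⟨i, hi, rfl⟩ := mem_image.1 hu
    rw [hF, mem_filter, mem_range] at hi
    exact ⟨hi.2, _, le_rfl, i, hi.1, rfl⟩)
  rw [card_image_of_injective _ (fun i j h => by simpa [desc] using h)] at h2
  have h3 : Real.exp (Real.log (3 / 2) / (N ^ 2 : ℕ) * ((m * N ^ 2 : ℕ) : ℝ)) = (3 / 2 : ℝ) ^ m := by
    have : ((N ^ 2 : ℕ) : ℝ) ≠ 0 := by positivity
    rw [show Real.log (3 / 2) / (N ^ 2 : ℕ) * ((m * N ^ 2 : ℕ) : ℝ) = m * Real.log (3 / 2) by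
        rw [Nat.cast_mul m]; field_simp,
      Real.exp_nat_mul, Real.exp_log (by norm_num)]
  rw [h3] at h2
  have h4 : ((N ^ m : ℕ) : ℝ) ≤ F.card := by exact_mod_cast h1
  have h5 : ((N ^ m : ℕ) : ℝ) = 2 ^ m * ((Δ + 1 : ℕ) : ℝ) ^ (m * r) := by
    rw [hN]; push_cast; rw [mul_pow, ← pow_mul, mul_comm r m]
  have h6 : (0 : ℝ) < ((Δ + 1 : ℕ) : ℝ) ^ (m * r) := by positivity
  have h7 : C₂ * ((Δ + 1 : ℕ) : ℝ) ^ (m * r) * (3 / 2 : ℝ) ^ m <
      2 ^ m * ((Δ + 1 : ℕ) : ℝ) ^ (m * r) := by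
    calc _ < (4 / 3 : ℝ) ^ m * ((Δ + 1 : ℕ) : ℝ) ^ (m * r) * (3 / 2 : ℝ) ^ m := by gcongr
      _ = ((4 / 3 : ℝ) ^ m * (3 / 2 : ℝ) ^ m) * ((Δ + 1 : ℕ) : ℝ) ^ (m * r) := by ring
      _ = _ := by rw [← mul_pow]; norm_num
  linarith

/-- the dyadic points of the upper half plane -/
noncomputable def pt (u : ℕ × ℕ) : ℍ :=
  ⟨⟨u.2 / 2 ^ u.1, 1 / 2 ^ u.1⟩, by show (0 : ℝ) < 1 / 2 ^ u.1; positivity⟩

lemma pt_im (u : ℕ × ℕ) : (pt u).im = 1 / 2 ^ u.1 := rfl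

lemma pt_re (u : ℕ × ℕ) : (pt u).re = u.2 / 2 ^ u.1 := rfl

lemma dist_coe_le_add (z w : ℍ) : dist (z : ℂ) w ≤ |z.re - w.re| + |z.im - w.im| := by
  rw [dist_eq_norm]
  simpa using Complex.norm_le_abs_re_add_abs_im ((z : ℂ) - w)

lemma pt_child (v : ℕ × ℕ) (e : ℕ) (he : e < 2) : dist (pt v) (pt (desc v 1 e)) ≤ 2 := by
  refine (dist_le_dist_coe_div_sqrt _ _).trans ?_
  have hp : (0 : ℝ) < 2 ^ v.1 := by positivity
  have h1 : (1 / 2 ^ v.1) / 2 ≤ √((pt v).im * (pt (desc v 1 e)).im) := by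
    apply Real.le_sqrt_of_sq_le
    simp only [pt_im, desc, pow_add, pow_one]
    field_simp
    norm_num
  have he' : (e : ℝ) ≤ 1 := by exact_mod_cast (by omega : e ≤ 1)
  have h2 : dist ((pt v : ℍ) : ℂ) (pt (desc v 1 e) : ℍ) ≤ 1 / 2 ^ v.1 := by
    refine (dist_coe_le_add _ _).trans ?_
    simp only [pt_im, pt_re, desc, pow_add, pow_one]
    push_cast
    rw [show (v.2 : ℝ) / 2 ^ v.1 - (2 * v.2 + e) / (2 ^ v.1 * 2) = -(e / 2 / 2 ^ v.1) by
        field_simp; ring,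
      show (1 : ℝ) / 2 ^ v.1 - 1 / (2 ^ v.1 * 2) = 1 / 2 / 2 ^ v.1 by field_simp; ring,
      abs_neg, abs_of_nonneg (by positivity), abs_of_nonneg (by positivity), ← add_div]
    gcongr
    linarith
  rw [div_le_iff₀ (lt_of_lt_of_le (by positivity) h1)]
  linarith

lemma pt_horiz (n k : ℕ) : dist (pt (n, k)) (pt (n, k + 1)) ≤ 2 := by
  refine (dist_le_dist_coe_div_sqrt _ _).trans ?_
  have hp : (0 : ℝ) < 2 ^ n := by positivity
  have h1 : √((pt (n, k)).im * (pt (n, k + 1)).im) = 1 / 2 ^ n := by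
    simp only [pt_im]
    exact Real.sqrt_mul_self (by positivity)
  have h2 : dist ((pt (n, k) : ℍ) : ℂ) (pt (n, k + 1) : ℍ) ≤ 1 / 2 ^ n := by
    refine (dist_coe_le_add _ _).trans ?_
    simp only [pt_im, pt_re]
    push_cast
    rw [show (k : ℝ) / 2 ^ n - (k + 1) / 2 ^ n = -(1 / 2 ^ n) by ring, abs_neg,
      abs_of_nonneg (by positivity)]
    simp
  rw [h1, div_le_iff₀ (by positivity)]
  have : (0 : ℝ) < 1 / 2 ^ n := by positivity
  linarith

lemma card_close (F : Finset ℕ) (E : ℕ) (h : ∀ i ∈ F, ∀ j ∈ F, i ≤ j + E) : F.card ≤ 2 * E + 1 := by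
  rcases F.eq_empty_or_nonempty with rfl | ⟨x, hx⟩
  · simp
  · have : F ⊆ Icc (x - E) (x + E) := fun i hi => by
      have := h i hi x hx
      have := h x hx i hi
      rw [mem_Icc]; omega
    refine (card_le_card this).trans ?_
    rw [Nat.card_Icc]; omega

lemma pt_mult (B : ℝ) : ∃ K : ℕ, ∀ F : Finset (ℕ × ℕ),
    (∀ u ∈ F, ∀ u' ∈ F, dist (pt u) (pt u') ≤ B) → F.card ≤ K := by
  classical
  obtain ⟨E, hE⟩ := exists_nat_ge (Real.exp B)
  refine ⟨(2 * E + 1) * (2 * E + 1), fun F hF => ?_⟩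
  have h1 : (F.image Prod.fst).card ≤ 2 * E + 1 := by
    apply card_close
    intro i hi j hj
    obtain ⟨u, hu, rfl⟩ := mem_image.1 hi
    obtain ⟨u', hu', rfl⟩ := mem_image.1 hj
    have h2 := im_le_im_mul_exp_dist (pt u') (pt u)
    have h3 : Real.exp (dist (pt u') (pt u)) ≤ E := (Real.exp_le_exp.2 (hF _ hu' _ hu)).trans hE
    simp only [pt_im] at h2
    by_contra hcon
    obtain ⟨m, hm⟩ : ∃ m, u.1 = u'.1 + E + m := ⟨u.1 - (u'.1 + E), by omega⟩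
    have h4 : (1 : ℝ) / 2 ^ u'.1 ≤ 1 / 2 ^ u.1 * E := h2.trans (by gcongr)
    rw [hm, pow_add, pow_add] at h4
    have h5 : (E : ℝ) < 2 ^ E := by exact_mod_cast Nat.lt_two_pow_self
    have h6 : (1 : ℝ) ≤ 2 ^ m := one_le_pow₀ (by norm_num)
    have hp : (0 : ℝ) < 2 ^ u'.1 := by positivity
    field_simp at h4
    nlinarith
  refine (card_le_mul_card_image (f := Prod.fst) F (2 * E + 1) ?_).trans
    (Nat.mul_le_mul_left _ h1)
  intro n _
  rw [← card_image_of_injOn (f := Prod.snd) (by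
    intro u hu u' hu' h
    have h1 := (mem_filter.1 hu).2
    have h2 := (mem_filter.1 hu').2
    exact Prod.ext (h1.trans h2.symm) h)]
  apply card_close
  intro i hi j hj
  obtain ⟨u, hu, rfl⟩ := mem_image.1 hi
  obtain ⟨u', hu', rfl⟩ := mem_image.1 hj
  obtain ⟨hu, hn⟩ := mem_filter.1 hu
  obtain ⟨hu', hn'⟩ := mem_filter.1 hu'
  have h2 := dist_coe_le (pt u) (pt u')
  have h3 : Real.exp (dist (pt u) (pt u')) ≤ E := (Real.exp_le_exp.2 (hF _ hu _ hu')).trans hE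
  have h4 : (pt u).re - (pt u').re ≤ dist ((pt u : ℍ) : ℂ) (pt u' : ℍ) := by
    rw [dist_eq_norm]
    have := Complex.re_le_norm (((pt u : ℍ) : ℂ) - (pt u' : ℍ))
    simpa using this
  simp only [pt_re, pt_im, hn, hn'] at h2 h4
  have hp : (0 : ℝ) < 2 ^ n := by positivity
  have h5 : (u.2 : ℝ) / 2 ^ n - u'.2 / 2 ^ n ≤ 1 / 2 ^ n * E := by
    refine h4.trans (h2.trans ?_)
    gcongr
    linarith
  field_simp at h5
  have : (u.2 : ℝ) ≤ u'.2 + E := by linarith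
  exact_mod_cast this

lemma dist_boxProd {W U : Type*} {T : SimpleGraph W} {Y : SimpleGraph U} (hT : T.Connected)
    (hY : Y.Connected) (x y : W × U) :
    (T □ Y).dist x y = T.dist x.1 y.1 + Y.dist x.2 y.2 := by
  have h := edist_boxProd (G := T) (H := Y) x y
  rw [← ((hT.boxProd hY) x y).coe_dist_eq_edist, ← (hT _ _).coe_dist_eq_edist,
    ← (hY _ _).coe_dist_eq_edist] at h
  exact_mod_cast h

theorem main {V W U : Type*} (X : SimpleGraph V) (T : SimpleGraph W) (Y : SimpleGraph U)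
    (hX : QuasiIsomH2 X) (hT : T.IsTree) (hTd : BddDeg T)
    (hY : Y.Connected) (hYd : BddDeg Y) (hs : SubexpGrowth Y) :
    ¬ ∃ f : V → W × U, IsRegularMap X (T □ Y) f := by
  classical
  rintro ⟨f, κ, hκ, hf, hfib⟩
  obtain ⟨q, A, B, hA, hB, hq, hq'⟩ := hX
  choose ψ hψ using hq'
  obtain ⟨L, hL⟩ := exists_nat_ge (κ * (A * (2 + 3 * B)) + κ)
  obtain ⟨K, hK⟩ := pt_mult (2 * B)
  obtain ⟨K', hK'⟩ := exists_nat_ge κ
  have hlip : ∀ u u', dist (pt u) (pt u') ≤ 2 →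
      T.dist (f (ψ (pt u))).1 (f (ψ (pt u'))).1 ≤ L ∧
        Y.dist (f (ψ (pt u))).2 (f (ψ (pt u'))).2 ≤ L := by
    intro u u' h
    have h1 := (hq (ψ (pt u)) (ψ (pt u'))).1
    have h2 := dist_triangle4 (q (ψ (pt u))) (pt u) (pt u') (q (ψ (pt u')))
    have h3 := hψ (pt u)
    have h4 := hψ (pt u')
    rw [_root_.dist_comm] at h4
    have h5 : (X.dist (ψ (pt u)) (ψ (pt u')) : ℝ) ≤ A * (2 + 3 * B) := by
      rw [mul_comm, ← div_le_iff₀ (by linarith)]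
      linarith
    have h6 := hf (ψ (pt u)) (ψ (pt u'))
    have h7 : ((T □ Y).dist (f (ψ (pt u))) (f (ψ (pt u'))) : ℝ) ≤ L := by
      refine h6.trans (le_trans ?_ hL)
      gcongr
    have h8 : (T □ Y).dist (f (ψ (pt u))) (f (ψ (pt u'))) ≤ L := by exact_mod_cast h7
    rw [dist_boxProd hT.connected hY] at h8
    omega
  refine core hT hTd hY hYd hs (fun u => (f (ψ (pt u))).1) (fun u => (f (ψ (pt u))).2) L (K * K')
    (fun v e he => (hlip _ _ (pt_child v e he)).1) (fun n k => (hlip _ _ (pt_horiz n k)).1)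
    (fun v e he => (hlip _ _ (pt_child v e he)).2) ?_
  intro t y F hF
  obtain ⟨hfin, hcard⟩ := hfib (t, y)
  have h1 : hfin.toFinset.card ≤ K' := by
    rw [Set.ncard_eq_toFinset_card _ hfin] at hcard
    exact_mod_cast hcard.trans hK'
  refine (card_le_mul_card_image_of_maps_to (f := fun u => ψ (pt u)) (t := hfin.toFinset)
    ?_ K ?_).trans (Nat.mul_le_mul_left _ h1)
  · intro u hu
    simp only [Set.Finite.mem_toFinset, Set.mem_preimage, Set.mem_singleton_iff]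
    exact Prod.ext (hF u hu).1 (hF u hu).2
  · intro x _
    apply hK
    intro u hu u' hu'
    have h2 := (mem_filter.1 hu).2
    have h3 := (mem_filter.1 hu').2
    have h4 := hψ (pt u)
    have h5 := hψ (pt u')
    rw [h2] at h4
    rw [h3] at h5
    have := dist_triangle_left (pt u) (pt u') (q x)
    linarith

end Pool.Agent.H674Z.Reg
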