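import Pool.Agent.H674Z.AsdLab
import Pool.Agent.H674Z.RegMain

set_option autoImplicit false

namespace Pool.Agent.H674Z.Asd

open Finset

variable {k : ℕ}

namespace Par

variable (P : Par k)

theorem cover (hk : 1 ≤ k) (x : Fin k → ℝ) (y : ℝ) (hy : 0 < y) (hy1 : y ≤ 1) :
    ∃ j lab, P.Lab j x y lab := by
  classical
  have L8 := P.L8
  obtain ⟨m, hm1, hm2⟩ := exists_nat_pow_near (x := y⁻¹) (y := (P.L : ℝ))
    (one_le_inv_iff₀.2 ⟨hy, hy1⟩) (by linarith)
  have hi : y ≤ P.u m := by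
    unfold u; rwa [le_inv_comm₀ hy (by positivity)]
  have lo : P.u (m + 1) < y := by
    unfold u; rwa [inv_lt_comm₀ (by positivity) hy]
  have sp := P.spos m
  set n : Fin k → ℤ := fun i => round (x i / (2 * P.s m)) with hn
  have hcoord : ∀ i, |x i - 2 * P.s m * n i| ≤ P.s m := by
    intro i
    have h1 := abs_sub_round (x i / (2 * P.s m))
    have h2 : x i - 2 * P.s m * n i = 2 * P.s m * (x i / (2 * P.s m) - n i) := by
      field_simp
    rw [h2, abs_mul, abs_of_pos (by positivity)]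
    nlinarith
  have hcell : ‖x - P.ctr m n‖ ≤ P.s m := by
    rw [pi_norm_le_iff_of_nonneg sp.le]
    intro i
    exact hcoord i
  set N := ‖x - P.ctr m n‖ with hN
  have : Nonempty (Fin k) := ⟨⟨0, hk⟩⟩
  obtain ⟨i0, hi0⟩ := Finite.exists_max (fun i => |x i - 2 * P.s m * n i|)
  have hN0 : N ≤ |x i0 - 2 * P.s m * n i0| := by
    rw [hN, pi_norm_le_iff_of_nonneg (abs_nonneg _)]
    intro i
    exact hi0 i
  set Band : Fin (k + 1) → Fin k → Prop := fun j i =>
    P.a j * y < |x i - 2 * P.s m * n i| ∧ |x i - 2 * P.s m * n i| < P.Q * P.a j * y with hBand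
  set Ok : Fin (k + 1) → Prop := fun j => N ≤ P.ρ j * y ∨ ((¬ Settled P.L n ∧ P.Pre j m y) ∨
    (Settled P.L n ∧ P.Q * P.ρ j * y ≤ N ∧
      (P.Pre j m y ∨ N ≤ 2 * P.s (m + 1) - P.Q * P.a j * y))) ∨
    (P.Post j m y ∧ P.Q * P.ρ j * y ≤ N ∧ (Settled P.L n → 2 * P.s (m + 1) - P.a j * y ≤ N))
    with hOk
  have hpp : ∀ j j' : Fin (k + 1), j < j' → ¬ P.Pre j' m y → P.Post j m y := by
    intro j j' hj h
    unfold Pre at h
    unfold Post
    have : P.Q ^ ((j : ℕ) + 2) ≤ P.Q ^ ((j' : ℕ) + 1) := P.Qle (by have : (j : ℕ) < j' := hj; omega)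
    push Not at h
    nlinarith
  have haa : ∀ j j' : Fin (k + 1), j < j' → P.Q * P.a j' * y ≤ P.a j * y := by
    intro j j' hj
    have : P.Q * P.a j' ≤ P.a j := by
      unfold a; rw [← pow_succ']
      exact P.Qle (by have : (j : ℕ) < j' := hj; have := j'.2; omega)
    gcongr
  have hρρ : ∀ j j' : Fin (k + 1), j < j' → P.Q * P.ρ j * y ≤ P.ρ j' * y := by
    intro j j' hj
    have : P.Q * P.ρ j ≤ P.ρ j' := by
      unfold ρ; rw [← pow_succ']
      exact P.Qle (by have : (j : ℕ) < j' := hj; omega)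
    gcongr
  have haρ : ∀ j j' : Fin (k + 1), P.Q * P.a j * y ≤ P.ρ j' * y := by
    intro j j'
    have : P.Q * P.a j ≤ P.ρ j' := by
      unfold ρ a; rw [← pow_succ']
      exact P.Qle (by omega)
    gcongr
  have c2 : ∀ j j' : Fin (k + 1), j < j' → ¬ Ok j → ¬ Ok j' → False := by
    intro j j' hj h h'
    apply h
    have h1 : P.ρ j' * y < N := by
      by_contra hc
      exact h' (Or.inl (not_lt.1 hc))
    have h2 := hρρ j j' hj
    by_cases hs : Settled P.L n
    · by_cases h3 : P.Q * P.ρ j' * y ≤ N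
      · have h4 : ¬ P.Pre j' m y := fun hp => h' (Or.inr (Or.inl (Or.inr ⟨hs, h3, Or.inl hp⟩)))
        have h5 : ¬ N ≤ 2 * P.s (m + 1) - P.Q * P.a j' * y :=
          fun hp => h' (Or.inr (Or.inl (Or.inr ⟨hs, h3, Or.inr hp⟩)))
        have h6 := haa j j' hj
        exact Or.inr (Or.inr ⟨hpp j j' hj h4, by linarith, fun _ => by linarith⟩)
      · have b1 := P.small (P.Qa j) hy.le hi
        have b2 := P.small (P.Qρ j') hy.le hi
        have := P.spos (m + 1)
        exact Or.inr (Or.inl (Or.inr ⟨hs, by linarith, Or.inr (by linarith)⟩))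
    · have h4 : ¬ P.Pre j' m y := fun hp => h' (Or.inr (Or.inl (Or.inl ⟨hs, hp⟩)))
      exact Or.inr (Or.inr ⟨hpp j j' hj h4, by linarith, fun h => (hs h).elim⟩)
  have c3 : ∀ (j j' : Fin (k + 1)) (i : Fin k), j < j' → Band j i → Band j' i → False := by
    intro j j' i hj h h'
    have := haa j j' hj
    have := h.1
    have := h'.2
    linarith
  have c4 : ∀ j j' : Fin (k + 1), Band j i0 → Ok j' := by
    intro j j' h
    have := haρ j j'
    have := h.2
    exact Or.inl (by linarith)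
  have key : ∃ j, Ok j ∧ ∀ i, ¬ Band j i := by
    by_contra hc
    push Not at hc
    have hc' : ∀ j, ∃ i, Band j i ∨ (i = i0 ∧ ¬ Ok j) := by
      intro j
      by_cases h : Ok j
      · obtain ⟨i, hi⟩ := hc j h
        exact ⟨i, Or.inl hi⟩
      · exact ⟨i0, Or.inr ⟨rfl, h⟩⟩
    choose φ hφ using hc'
    have hlt : ∀ j j', j < j' → φ j ≠ φ j' := by
      intro j j' hj he
      rcases hφ j with h | ⟨h1, h2⟩ <;> rcases hφ j' with h' | ⟨h1', h2'⟩
      · exact c3 j j' _ hj h (he ▸ h')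
      · exact h2' (c4 j j' (h1' ▸ he ▸ h))
      · exact h2 (c4 j' j (h1 ▸ he ▸ h'))
      · exact c2 j j' hj h2 h2'
    have hinj : Function.Injective φ := by
      intro j j' he
      by_contra hne
      rcases lt_or_gt_of_ne hne with h | h
      · exact hlt _ _ h he
      · exact hlt _ _ h he.symm
    have := Fintype.card_le_of_injective φ hinj
    simp at this
  obtain ⟨j, hok, hb⟩ := key
  have hface : ∀ i, ∃ δ : ℤ, |δ| ≤ 1 ∧
      IsFace (P.s m) (P.a j * y) (P.Q * P.a j * y) (x i) (2 * n i + δ) := by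
    intro i
    apply face_exists (hcoord i)
    · have b1 := P.small (P.Qa j) hy.le hi
      have := P.s8 m
      have := P.spos (m + 1)
      linarith
    · by_contra hc
      push Not at hc
      exact hb i hc
  choose δ hδ hδ' using hface
  have hloc : P.Loc j x y m n δ := ⟨lo, hi, hcell, hδ, hδ'⟩
  rcases hok with h | h | h
  · exact ⟨j, _, m, n, δ, hloc, Or.inl ⟨h, rfl⟩⟩
  · exact ⟨j, _, m, n, δ, hloc, Or.inr (Or.inl ⟨rfl, h⟩)⟩
  · exact ⟨j, _, m, n, δ, hloc, Or.inr (Or.inr ⟨rfl, h⟩)⟩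

theorem count (lab : ℕ × (Fin k → ℤ)) (τ : ℕ) (x : Fin k → ℝ) (y : ℝ)
    (F : Finset (ℕ × (Fin k → ℤ)))
    (hF : ∀ b ∈ F, Comb P.L lab b.1 b.2 ∧ ∃ x' y', P.u (b.1 + 1) < y' ∧ y' ≤ P.u b.1 ∧
      ‖x' - P.ctr b.1 b.2‖ ≤ P.s b.1 ∧ Close ((P.L : ℝ) ^ τ) x y x' y') :
    F.card ≤ (2 ^ k * ((τ + 2) * (2 * P.L + 3) ^ k)) * (2 * (2 * τ + 1) + 1) := by
  classical
  have L8 := P.L8
  have h1 : (F.image Prod.fst).card ≤ 2 * (2 * τ + 1) + 1 := by
    apply Reg.card_close
    intro m hm m' hm'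
    obtain ⟨b, hb, rfl⟩ := mem_image.1 hm
    obtain ⟨b', hb', rfl⟩ := mem_image.1 hm'
    obtain ⟨-, x1, y1, -, a2, -, a4⟩ := hF b hb
    obtain ⟨-, x2, y2, c1, -, -, c4⟩ := hF b' hb'
    have h2 : P.u (b'.1 + 1) < P.L ^ τ * (P.L ^ τ * P.u b.1) := by
      calc P.u (b'.1 + 1) < y2 := c1
        _ ≤ P.L ^ τ * y := c4.r2
        _ ≤ P.L ^ τ * (P.L ^ τ * y1) := by gcongr; exact a4.r1
        _ ≤ _ := by gcongr
    have h3 : (P.L : ℝ) ^ b.1 < P.L ^ (b'.1 + 1 + τ + τ) := by
      unfold u at h2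
      rw [pow_add, pow_add]
      field_simp at h2
      nlinarith
    have := (pow_lt_pow_iff_right₀ (by linarith)).1 h3
    omega
  refine (card_le_mul_card_image (f := Prod.fst) F _ ?_).trans (Nat.mul_le_mul_left _ h1)
  intro m _
  set G := F.filter fun b => b.1 = m with hG
  have hG' : ∀ b ∈ G, b ∈ F ∧ b.1 = m := fun b hb => mem_filter.1 hb
  choose! n0 ν a g1 g2 g3 using fun b (hb : b ∈ F) => (hF b hb).1
  have hclose : ∀ b ∈ G, ∀ b' ∈ G, ∀ i, |2 * b.2 i - 2 * b'.2 i| < (P.L : ℤ) ^ (τ + 1) := by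
    intro b hb b' hb' i
    obtain ⟨hb, e⟩ := hG' b hb
    obtain ⟨hb', e'⟩ := hG' b' hb'
    obtain ⟨-, x1, y1, -, a2, a3, a4⟩ := hF b hb
    obtain ⟨-, x2, y2, -, c2, c3, c4⟩ := hF b' hb'
    rw [e] at a2 a3
    rw [e'] at c2 c3
    have t1 := abs_le.1 ((coord_le x1 _ i).trans a3)
    have t2 := abs_le.1 ((coord_le x2 _ i).trans c3)
    have up := P.upos m
    have hp : (1 : ℝ) ≤ P.L ^ τ := one_le_pow₀ (by linarith)
    have hu : P.u m ≤ P.s m := by
      unfold s; have := P.h1; nlinarith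
    have w1 : (P.L : ℝ) ^ τ * y1 ≤ P.L ^ τ * P.s m := by gcongr; linarith
    have w2 : (P.L : ℝ) ^ τ * y2 ≤ P.L ^ τ * P.s m := by gcongr; linarith
    have t3 := abs_le.1 ((coord_le x x1 i).trans (a4.d2.trans w1))
    have t4 := abs_le.1 ((coord_le x x2 i).trans (c4.d2.trans w2))
    simp only [ctr] at t1 t2
    have sp := P.spos m
    have : |2 * (b.2 i : ℝ) - 2 * b'.2 i| < (P.L : ℝ) ^ (τ + 1) := by
      have h4 : |2 * (b.2 i : ℝ) - 2 * b'.2 i| ≤ 2 + 2 * P.L ^ τ := by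
        rw [abs_le]
        constructor
        · apply le_of_mul_le_mul_left _ sp
          linarith
        · apply le_of_mul_le_mul_left _ sp
          linarith
      rw [pow_succ]
      nlinarith
    exact_mod_cast this
  have hcard : (Fintype.piFinset (fun _ : Fin k => Icc (0 : ℤ) 1) ×ˢ (range (τ + 2) ×ˢ
      Fintype.piFinset (fun _ : Fin k => Icc (-(P.L + 1) : ℤ) (P.L + 1)))).card =
      2 ^ k * ((τ + 2) * (2 * P.L + 3) ^ k) := by
    rw [card_product, card_product, Fintype.card_piFinset, Fintype.card_piFinset, card_range]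
    simp only [Int.card_Icc, prod_const, card_univ, Fintype.card_fin]
    congr 3
    omega
  rw [← hcard]
  refine card_le_card_of_injOn (fun b => (fun i => n0 b i - lab.2 i / 2, min (a b) (τ + 1),
    if a b ≤ τ then ν b else 0)) ?_ ?_
  · intro b hb
    obtain ⟨hb, -⟩ := hG' b hb
    simp only [coe_product, Set.mem_prod, mem_coe, Fintype.mem_piFinset, mem_Icc, mem_range]
    refine ⟨fun i => ?_, by omega, fun i => ?_⟩
    · have := abs_le.1 (g1 b hb i)
      omega
    · have := abs_le.1 (g2 b hb i)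
      split_ifs
      · exact this
      · simp only [Pi.zero_apply]
        omega
  · intro b hb b' hb' he
    have hc := hclose b hb b' hb'
    obtain ⟨hb, e⟩ := hG' b hb
    obtain ⟨hb', e'⟩ := hG' b' hb'
    simp only [Prod.mk.injEq] at he
    obtain ⟨he1, he2, he3⟩ := he
    refine Prod.ext (e.trans e'.symm) (funext fun i => ?_)
    have k1 := g3 b hb i
    have k2 := g3 b' hb' i
    have k3 : n0 b i = n0 b' i := by
      have := congrFun he1 i
      omega
    rw [e, k3] at k1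
    rw [e'] at k2
    by_cases ha : a b ≤ τ
    · have ha' : a b' = a b := by omega
      rw [if_pos ha, if_pos (by omega)] at he3
      rw [ha', ← he3] at k2
      omega
    · have d1 : (P.L : ℤ) ^ (τ + 1) ∣ 2 * b.2 i - 2 * b'.2 i := by
        rw [k1, k2, add_sub_add_left_eq_sub]
        exact dvd_sub (Dvd.dvd.mul_right (pow_dvd_pow _ (by omega)) _)
          (Dvd.dvd.mul_right (pow_dvd_pow _ (by omega)) _)
      have := Int.eq_zero_of_abs_lt_dvd d1 (hc i)
      omega

end Par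

end Pool.Agent.H674Z.Asd
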