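import Mathlib

/-! Asymptotic dimension with controlled growth, and hyperbolic space. -/

set_option autoImplicit false

namespace Pool.Agent.H674Z.Asd

open Filter Topology

/-- The upper half-space model of real hyperbolic space of dimension `k + 1`. -/
def Hyp (k : ℕ) : Type := {p : EuclideanSpace ℝ (Fin (k + 1)) // 0 < p (Fin.last k)}

/-- The hyperbolic distance in the upper half-space model. -/
noncomputable def hdist {k : ℕ} (p q : Hyp k) : ℝ :=
  2 * Real.arsinh (dist p.1 q.1 / (2 * √(p.1 (Fin.last k) * q.1 (Fin.last k))))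

/-- The graph has bounded degree. -/
def BddDeg {V : Type*} (G : SimpleGraph V) : Prop :=
  ∃ Δ : ℕ, ∀ v, (G.neighborSet v).encard ≤ Δ

/-- The vertex set of the graph, with its path metric, is quasi-isometric to hyperbolic space of
dimension `k + 1`. -/
def QuasiIsomHyp (k : ℕ) {V : Type*} (X : SimpleGraph V) : Prop :=
  ∃ (q : V → Hyp k) (A B : ℝ), 1 ≤ A ∧ 0 ≤ B ∧
    (∀ x x', (X.dist x x' : ℝ) / A - B ≤ hdist (q x) (q x') ∧
      hdist (q x) (q x') ≤ A * X.dist x x' + B) ∧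
    ∀ z : Hyp k, ∃ x, hdist (q x) z ≤ B

/-- The family `o(poly(d))`: non-decreasing non-negative functions on `[0, ∞)` with
`f t / t ^ d → 0`. -/
def oPoly (d : ℕ) : Set (ℝ → ℝ) :=
  {f | MonotoneOn f (Set.Ici 0) ∧ (∀ t, 0 ≤ t → 0 ≤ f t) ∧
    Tendsto (fun t => f t / t ^ d) atTop (𝓝 0)}

/-- `asdim_F ≤ n` (weak version): for every `r` there is a cover of the vertex set such that each
ball of radius `r` meets at most `n + 1` members and the growth functions of all members are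
bounded by one function of the family `F`. -/
def AsdimLE {V : Type*} (X : SimpleGraph V) (F : Set (ℝ → ℝ)) (n : ℕ) : Prop :=
  ∀ r : ℝ, 0 < r → ∃ C : Set (Set V), ⋃₀ C = Set.univ ∧
    (∀ x, {U ∈ C | ∃ z ∈ U, (X.dist x z : ℝ) ≤ r}.encard ≤ n + 1) ∧
    ∃ f ∈ F, ∀ U ∈ C, ∀ x ∈ U, ∀ t : ℝ, 0 ≤ t →
      {z ∈ U | (X.dist x z : ℝ) ≤ t}.Finite ∧ ({z ∈ U | (X.dist x z : ℝ) ≤ t}.ncard : ℝ) ≤ f t

end Pool.Agent.H674Z.Asd
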