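import Pool.Agent.H674Z.AsdPat

set_option autoImplicit false

namespace Pool.Agent.H674Z.Asd

variable {k : ℕ}

namespace Par

variable (P : Par k)

/-- unit of length at level `m` -/
noncomputable def u (m : ℕ) : ℝ := ((P.L : ℝ) ^ m)⁻¹
/-- half side of the cells at level `m` -/
noncomputable def s (m : ℕ) : ℝ := P.h * P.u m
/-- radius of the bands -/
noncomputable def a (j : Fin (k + 1)) : ℝ := P.Q ^ (k - j)
/-- radius of the rings -/
noncomputable def ρ (j : Fin (k + 1)) : ℝ := P.Q ^ (k + 1 + j)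
/-- centre of a cell -/
noncomputable def ctr (m : ℕ) (n : Fin k → ℤ) : Fin k → ℝ := fun i => 2 * P.s m * n i
/-- before the renewal of colour `j` -/
def Pre (j : Fin (k + 1)) (m : ℕ) (y : ℝ) : Prop := P.u m ≤ P.Q ^ (j + 1 : ℕ) * y
/-- after the renewal of colour `j` -/
def Post (j : Fin (k + 1)) (m : ℕ) (y : ℝ) : Prop := P.Q ^ (j + 2 : ℕ) * y ≤ P.u m

/-- location data of a point -/
structure Loc (j : Fin (k + 1)) (x : Fin k → ℝ) (y : ℝ) (m : ℕ) (n δ : Fin k → ℤ) : Prop where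
  lo : P.u (m + 1) < y
  hi : y ≤ P.u m
  cell : ‖x - P.ctr m n‖ ≤ P.s m
  del : ∀ i, |δ i| ≤ 1
  face : ∀ i, IsFace (P.s m) (P.a j * y) (P.Q * P.a j * y) (x i) (2 * n i + δ i)

/-- zone and label of a point -/
def Zone (j : Fin (k + 1)) (x : Fin k → ℝ) (y : ℝ) (m : ℕ) (n δ : Fin k → ℤ)
    (lab : ℕ × (Fin k → ℤ)) : Prop :=
  (‖x - P.ctr m n‖ ≤ P.ρ j * y ∧ lab = Inn P.L m n δ) ∨
  (lab = Inh P.L m (fun i => 2 * n i + δ i) ∧ ((¬ Settled P.L n ∧ P.Pre j m y) ∨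
    (Settled P.L n ∧ P.Q * P.ρ j * y ≤ ‖x - P.ctr m n‖ ∧
      (P.Pre j m y ∨ ‖x - P.ctr m n‖ ≤ 2 * P.s (m + 1) - P.Q * P.a j * y)))) ∨
  (lab = (m + 1, fun i => 2 * n i + δ i) ∧ P.Post j m y ∧ P.Q * P.ρ j * y ≤ ‖x - P.ctr m n‖ ∧
    (Settled P.L n → 2 * P.s (m + 1) - P.a j * y ≤ ‖x - P.ctr m n‖))

/-- closeness -/
structure Close (E : ℝ) (x : Fin k → ℝ) (y : ℝ) (x' : Fin k → ℝ) (y' : ℝ) : Prop where
  d1 : ‖x - x'‖ ≤ E * y
  d2 : ‖x - x'‖ ≤ E * y'
  r1 : y ≤ E * y'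
  r2 : y' ≤ E * y

lemma Close.symm {E : ℝ} {x x' : Fin k → ℝ} {y y' : ℝ} (h : Close E x y x' y') :
    Close E x' y' x y :=
  ⟨by rw [norm_sub_rev]; exact h.d2, by rw [norm_sub_rev]; exact h.d1, h.r2, h.r1⟩

lemma EQ : 2 * P.E < P.Q := by have := P.hE; have := P.hQ; nlinarith
lemma Q2 : 2 < P.Q := by have := P.hE; have := P.EQ; linarith
lemma Q1 : 1 ≤ P.Q := by have := P.Q2; linarith
lemma Qle {a b : ℕ} (h : a ≤ b) : P.Q ^ a ≤ P.Q ^ b := pow_le_pow_right₀ P.Q1 h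
lemma L8 : (8 : ℝ) ≤ P.L := by
  have h1 : (2 : ℝ) ^ 3 ≤ P.Q ^ 3 := pow_le_pow_left₀ (by norm_num) P.Q2.le 3
  have h2 := P.Qle (by omega : 3 ≤ k + 3)
  have := P.hL
  linarith
lemma L8' : 8 ≤ P.L := by exact_mod_cast P.L8
lemma upos (m : ℕ) : 0 < P.u m := by have := P.L8; unfold u; positivity
lemma u_succ (m : ℕ) : P.u m = P.L * P.u (m + 1) := by
  have := P.L8; unfold u; rw [pow_succ]; field_simp
lemma h1 : 1 ≤ P.h := by
  have h1 := P.hh
  have h2 : 1 ≤ P.Q ^ (2 * k + 3) := one_le_pow₀ P.Q1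
  have := P.L8
  nlinarith
lemma spos (m : ℕ) : 0 < P.s m := by have := P.h1; have := P.upos m; unfold s; positivity
lemma s_succ (m : ℕ) : P.s m = P.L * P.s (m + 1) := by unfold s; rw [P.u_succ m]; ring
lemma s8 (m : ℕ) : 8 * P.s (m + 1) ≤ P.s m := by
  rw [P.s_succ m]; have := P.L8; have := P.spos (m + 1); nlinarith
lemma small {c y : ℝ} {m : ℕ} (hc : c ≤ P.Q ^ (2 * k + 2)) (hy : 0 ≤ y) (hy' : y ≤ P.u m) :
    c * y ≤ P.s (m + 1) / 2 := by
  have h1 := P.hh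
  have h2 := P.Q2
  have h3 := P.upos (m + 1)
  have h4 := P.L8
  have h5 : 0 < P.Q ^ (2 * k + 2) := by positivity
  rw [P.u_succ m] at hy'
  unfold s
  calc c * y ≤ P.Q ^ (2 * k + 2) * y := by gcongr
    _ ≤ P.Q ^ (2 * k + 2) * (P.L * P.u (m + 1)) := by gcongr
    _ = (P.L * P.Q ^ (2 * k + 2) * 2) * P.u (m + 1) / 2 := by ring
    _ ≤ (P.L * P.Q ^ (2 * k + 2) * P.Q) * P.u (m + 1) / 2 := by gcongr
    _ = (P.L * P.Q ^ (2 * k + 3)) * P.u (m + 1) / 2 := by ring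
    _ ≤ _ := by gcongr
lemma cross {c y y' : ℝ} (hc : 1 ≤ c) (hy : 0 < y) (h : y ≤ P.E * y') :
    c * y + P.E * y < P.Q * c * y' := by
  have h1 := P.hE
  have h2 := P.hQ
  have hy' : 0 < y' := by
    by_contra hn
    push Not at hn
    nlinarith
  have h3 : c * y + P.E * y ≤ 2 * P.E * c * y := by
    have : c * y ≤ P.E * c * y := by
      have : 0 ≤ (P.E - 1) * (c * y) := by positivity
      nlinarith
    have : P.E * y ≤ P.E * c * y := by
      have : 0 ≤ (c - 1) * (P.E * y) := mul_nonneg (by linarith) (by positivity)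
      nlinarith
    linarith
  calc c * y + P.E * y ≤ 2 * P.E * c * y := h3
    _ ≤ 2 * P.E * c * (P.E * y') := by gcongr
    _ = (2 * P.E ^ 2) * (c * y') := by ring
    _ < P.Q * (c * y') := by gcongr
    _ = _ := by ring
lemma a1 (j : Fin (k + 1)) : 1 ≤ P.a j := one_le_pow₀ P.Q1
lemma ρ1 (j : Fin (k + 1)) : 1 ≤ P.ρ j := one_le_pow₀ P.Q1
lemma Qa (j : Fin (k + 1)) : P.Q * P.a j ≤ P.Q ^ (2 * k + 2) := by
  unfold a; rw [← pow_succ']; exact P.Qle (by omega)
lemma Qρ (j : Fin (k + 1)) : P.Q * P.ρ j ≤ P.Q ^ (2 * k + 2) := by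
  unfold ρ; rw [← pow_succ']; exact P.Qle (by have := j.2; omega)
lemma Esm : P.E ≤ P.Q ^ (2 * k + 2) := by
  have h1 := P.Qle (by omega : 1 ≤ 2 * k + 2)
  have := P.EQ
  have := P.hE
  rw [pow_one] at h1
  linarith
lemma not_pre_post {j : Fin (k + 1)} {m : ℕ} {y y' : ℝ} (hy : 0 < y) (h : y' ≤ P.E * y)
    (h1 : P.Pre j m y') (h2 : P.Post j m y) : False := by
  unfold Pre at h1
  unfold Post at h2
  have h3 : 0 < P.Q ^ (j + 1 : ℕ) := pow_pos (by have := P.Q2; linarith) _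
  have h4 : P.E * y < P.Q * y := by
    have := P.EQ; have := P.hE; gcongr; linarith
  have : P.Q ^ (j + 1 : ℕ) * y' < P.Q ^ (j + 2 : ℕ) * y := by
    calc P.Q ^ (j + 1 : ℕ) * y' ≤ P.Q ^ (j + 1 : ℕ) * (P.E * y) := by gcongr
      _ < P.Q ^ (j + 1 : ℕ) * (P.Q * y) := by gcongr
      _ = _ := by ring
  linarith

lemma coord_le (x x' : Fin k → ℝ) (i : Fin k) : |x i - x' i| ≤ ‖x - x'‖ := by
  simpa using norm_le_pi_norm (x - x') i

lemma tri (x x' c : Fin k → ℝ) : ‖x - c‖ ≤ ‖x' - c‖ + ‖x - x'‖ := by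
  have := norm_add_le (x' - c) (x - x')
  rwa [show x' - c + (x - x') = x - c by abel] at this

lemma cell_eq {m : ℕ} {x : Fin k → ℝ} {n n' : Fin k → ℤ} (h : ‖x - P.ctr m n‖ ≤ P.s m)
    (h' : ‖x - P.ctr m n'‖ < P.s m) : n = n' := by
  funext i
  apply int_eq_of_close (P.spos m)
  have h1 := abs_le.1 (coord_le x (P.ctr m n) i)
  have h2 := abs_le.1 (coord_le x (P.ctr m n') i)
  simp only [ctr] at h1 h2
  rw [abs_lt]
  constructor <;> linarith

lemma ctr_mul (m : ℕ) (n : Fin k → ℤ) : P.ctr (m + 1) (fun i => P.L * n i) = P.ctr m n := by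
  funext i
  simp only [ctr, P.s_succ m]
  push_cast
  ring

theorem same_level {j : Fin (k + 1)} {x x' : Fin k → ℝ} {y y' : ℝ} {m : ℕ}
    {n δ n' δ' : Fin k → ℤ} {lab lab' : ℕ × (Fin k → ℤ)}
    (h : P.Loc j x y m n δ) (hz : P.Zone j x y m n δ lab)
    (h' : P.Loc j x' y' m n' δ') (hz' : P.Zone j x' y' m n' δ' lab')
    (hc : Close P.E x y x' y') : lab = lab' := by
  have hy : 0 < y := (P.upos _).trans h.lo
  have hy' : 0 < y' := (P.upos _).trans h'.lo
  have c1 := P.cross (P.a1 j) hy hc.r1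
  have c2 := P.cross (P.a1 j) hy' hc.r2
  have c3 := P.cross (P.ρ1 j) hy hc.r1
  have c4 := P.cross (P.ρ1 j) hy' hc.r2
  have b1 := P.small (P.Qa j) hy.le h.hi
  have b2 := P.small (P.Qa j) hy'.le h'.hi
  have b3 := P.small (P.Qρ j) hy.le h.hi
  have b4 := P.small (P.Qρ j) hy'.le h'.hi
  have b5 := P.small P.Esm hy.le h.hi
  have d1 := hc.d1
  have d2 := hc.d2
  have p0 := norm_nonneg (x - x')
  have p1 : 0 ≤ P.a j * y := by have := P.a1 j; positivity
  have p2 : 0 ≤ P.a j * y' := by have := P.a1 j; positivity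
  have s8 := P.s8 m
  have sp := P.spos (m + 1)
  have pp1 : P.Pre j m y' → P.Post j m y → False := P.not_pre_post hy hc.r2
  have pp2 : P.Pre j m y → P.Post j m y' → False := P.not_pre_post hy' hc.r1
  have hf : (fun i => 2 * n i + δ i) = fun i => 2 * n' i + δ' i := by
    funext i
    exact face_eq (P.spos m) (h.face i) (h'.face i) (coord_le x x' i) (by linarith) (by linarith)
      (by linarith) p1 p2
  by_cases hn : n = n'
  · subst hn
    have hδ : δ = δ' := by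
      funext i
      have := congrFun hf i
      omega
    subst hδ
    have t1 := tri x x' (P.ctr m n)
    have t2 := tri x' x (P.ctr m n)
    rw [norm_sub_rev x' x] at t2
    rcases hz with ⟨z1, rfl⟩ | ⟨rfl, ⟨z1, z2⟩ | ⟨z1, z2, z3⟩⟩ | ⟨rfl, z1, z2, z3⟩ <;>
      rcases hz' with ⟨w1, rfl⟩ | ⟨rfl, ⟨w1, w2⟩ | ⟨w1, w2, w3⟩⟩ | ⟨rfl, w1, w2, w3⟩
    · rfl
    · exact Inn_fresh _ _ _ _ w1
    · exfalso; linarith
    · exfalso; linarith
    · exact (Inn_fresh _ _ _ _ z1).symm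
    · rfl
    · rfl
    · exact (pp2 z2 w1).elim
    · exfalso; linarith
    · rfl
    · rfl
    · rcases z3 with z3 | z3
      · exact (pp2 z3 w1).elim
      · have := w3 z1; exfalso; linarith
    · exfalso; linarith
    · exact (pp1 w2 z1).elim
    · rcases w3 with w3 | w3
      · exact (pp1 w3 z1).elim
      · have := z3 w1; exfalso; linarith
    · rfl
  · have t1 : P.s m ≤ ‖x' - P.ctr m n'‖ + ‖x - x'‖ := by
      by_contra hlt
      push Not at hlt
      exact hn (P.cell_eq h.cell ((tri x x' _).trans_lt hlt))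
    have t2 : P.s m ≤ ‖x - P.ctr m n‖ + ‖x - x'‖ := by
      by_contra hlt
      push Not at hlt
      rw [norm_sub_rev x x'] at hlt
      exact hn (P.cell_eq h'.cell ((tri x' x _).trans_lt hlt)).symm
    have e1 : P.ρ j * y ≤ P.Q * P.ρ j * y := by
      have := P.ρ1 j; have := P.Q1
      have : 0 ≤ (P.Q - 1) * (P.ρ j * y) := mul_nonneg (by linarith) (by positivity)
      nlinarith
    have e2 : P.ρ j * y' ≤ P.Q * P.ρ j * y' := by
      have := P.ρ1 j; have := P.Q1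
      have : 0 ≤ (P.Q - 1) * (P.ρ j * y') := mul_nonneg (by linarith) (by positivity)
      nlinarith
    have e3 : 0 ≤ P.Q * P.a j * y := by have := P.a1 j; have := P.Q1; positivity
    have e4 : 0 ≤ P.Q * P.a j * y' := by have := P.a1 j; have := P.Q1; positivity
    have g : (lab = Inh P.L m (fun i => 2 * n i + δ i) ∧ P.Pre j m y) ∨
        (lab = (m + 1, fun i => 2 * n i + δ i) ∧ P.Post j m y) := by
      rcases hz with ⟨z1, rfl⟩ | ⟨rfl, ⟨z1, z2⟩ | ⟨z1, z2, z3 | z3⟩⟩ | ⟨rfl, z1, z2, z3⟩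
      · exfalso; linarith
      · exact Or.inl ⟨rfl, z2⟩
      · exact Or.inl ⟨rfl, z3⟩
      · exfalso; linarith
      · exact Or.inr ⟨rfl, z1⟩
    have g' : (lab' = Inh P.L m (fun i => 2 * n' i + δ' i) ∧ P.Pre j m y') ∨
        (lab' = (m + 1, fun i => 2 * n' i + δ' i) ∧ P.Post j m y') := by
      rcases hz' with ⟨z1, rfl⟩ | ⟨rfl, ⟨z1, z2⟩ | ⟨z1, z2, z3 | z3⟩⟩ | ⟨rfl, z1, z2, z3⟩
      · exfalso; linarith
      · exact Or.inl ⟨rfl, z2⟩
      · exact Or.inl ⟨rfl, z3⟩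
      · exfalso; linarith
      · exact Or.inr ⟨rfl, z1⟩
    rcases g with ⟨rfl, g⟩ | ⟨rfl, g⟩ <;> rcases g' with ⟨rfl, g'⟩ | ⟨rfl, g'⟩
    · rw [hf]
    · exact (pp2 g g').elim
    · exact (pp1 g' g).elim
    · rw [hf]

lemma npre {j : Fin (k + 1)} {m : ℕ} {y y' : ℝ} (hi : y' ≤ P.u (m + 1)) (r1 : y ≤ P.E * y') :
    ¬ P.Pre j m y := by
  intro hp
  unfold Pre at hp
  have h1 := P.hL
  have h2 := P.upos (m + 1)
  have h3 : y < P.Q * P.u (m + 1) := by
    have := P.EQ; have := P.hE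
    nlinarith
  have h4 : 0 < P.Q ^ (j + 1 : ℕ) := pow_pos (by have := P.Q2; linarith) _
  have h5 : P.Q ^ (j + 1 : ℕ) * P.Q ≤ P.L := by
    rw [← pow_succ]; exact (P.Qle (by have := j.2; omega)).trans h1
  rw [P.u_succ m] at hp
  have : P.Q ^ (j + 1 : ℕ) * y < P.L * P.u (m + 1) := by
    calc _ < P.Q ^ (j + 1 : ℕ) * (P.Q * P.u (m + 1)) := by gcongr
      _ = (P.Q ^ (j + 1 : ℕ) * P.Q) * P.u (m + 1) := by ring
      _ ≤ _ := by gcongr
  linarith

lemma npost {j : Fin (k + 1)} {m : ℕ} {y y' : ℝ} (hy' : 0 < y') (lo : P.u m < y)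
    (r1 : y ≤ P.E * y') : ¬ P.Post j m y' := by
  intro hp
  unfold Post at hp
  have h1 : P.Q ≤ P.Q ^ (j + 2 : ℕ) := by simpa using P.Qle (by omega : 1 ≤ (j : ℕ) + 2)
  have := P.EQ; have := P.hE
  nlinarith

theorem next_level {j : Fin (k + 1)} {x x' : Fin k → ℝ} {y y' : ℝ} {m : ℕ}
    {n δ n' δ' : Fin k → ℤ} {lab lab' : ℕ × (Fin k → ℤ)}
    (h : P.Loc j x y m n δ) (hz : P.Zone j x y m n δ lab)
    (h' : P.Loc j x' y' (m + 1) n' δ') (hz' : P.Zone j x' y' (m + 1) n' δ' lab')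
    (hc : Close P.E x y x' y') : lab = lab' := by
  have hy : 0 < y := (P.upos _).trans h.lo
  have hy' : 0 < y' := (P.upos _).trans h'.lo
  have hL1 : 1 ≤ P.L := by have := P.L8'; omega
  have c1 := P.cross (P.a1 j) hy hc.r1
  have c2 := P.cross (P.a1 j) hy' hc.r2
  have c3 := P.cross (P.ρ1 j) hy hc.r1
  have c4 := P.cross (P.ρ1 j) hy' hc.r2
  have b1 := P.small (P.Qa j) hy.le h.hi
  have b2 := P.small (P.Qa j) hy'.le h'.hi
  have b3 := P.small (P.Qρ j) hy.le h.hi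
  have b4 := P.small (P.Qρ j) hy'.le h'.hi
  have b5 := P.small P.Esm hy.le h.hi
  have b6 := P.small P.Esm hy'.le h'.hi
  have d1 := hc.d1
  have d2 := hc.d2
  have p0 := norm_nonneg (x - x')
  have p1 : 0 ≤ P.a j * y := by have := P.a1 j; positivity
  have p2 : 0 ≤ P.a j * y' := by have := P.a1 j; positivity
  have p3 : 0 ≤ P.E * y := by have := P.hE; positivity
  have p4 : 0 ≤ P.E * y' := by have := P.hE; positivity
  have s8 := P.s8 m
  have s8' := P.s8 (m + 1)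
  have sp := P.spos (m + 1 + 1)
  have e1 : P.ρ j * y ≤ P.Q * P.ρ j * y := by
    have := P.ρ1 j; have := P.Q1
    have : 0 ≤ (P.Q - 1) * (P.ρ j * y) := mul_nonneg (by linarith) (by positivity)
    nlinarith
  have e2 : P.ρ j * y' ≤ P.Q * P.ρ j * y' := by
    have := P.ρ1 j; have := P.Q1
    have : 0 ≤ (P.Q - 1) * (P.ρ j * y') := mul_nonneg (by linarith) (by positivity)
    nlinarith
  have e3 : P.a j * y' ≤ P.Q * P.a j * y' := by
    have := P.a1 j; have := P.Q1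
    have : 0 ≤ (P.Q - 1) * (P.a j * y') := mul_nonneg (by linarith) (by positivity)
    nlinarith
  have npre : ¬ P.Pre j m y := P.npre h'.hi hc.r1
  have npost : ¬ P.Post j (m + 1) y' := P.npost hy' h.lo hc.r1
  -- faces
  have hf : (fun i => 2 * n i + δ i) = fun i => par P.L (2 * n' i + δ' i) := by
    funext i
    have := face_par P.L hL1 (P.spos (m + 1)) (by linarith) (h'.face i)
    rw [← P.s_succ m] at this
    exact face_eq (P.spos m) (h.face i) this (coord_le x x' i) (by linarith) (by linarith)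
      (by linarith) p1 p2
  by_cases hin : Settled P.L n' ∧ ‖x' - P.ctr (m + 1) n'‖ ≤ P.ρ j * y'
  · obtain ⟨hs, hN⟩ := hin
    have hl' : lab' = Inn P.L (m + 1) n' δ' := by
      rcases hz' with ⟨w1, rfl⟩ | ⟨rfl, ⟨w1, w2⟩ | ⟨w1, w2, w3⟩⟩ | ⟨rfl, w1, w2, w3⟩
      · rfl
      · exact (w1 hs).elim
      · exfalso
        have := P.cross (P.ρ1 j) hy' (le_mul_of_one_le_left hy'.le P.hE)
        linarith
      · exact (npost w1).elim
    have hn' : n' = fun i => P.L * (n' i / P.L) := by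
      funext i; exact (Int.mul_ediv_cancel' (hs i)).symm
    have hctr : P.ctr (m + 1) n' = P.ctr m (fun i => n' i / P.L) := by
      rw [← P.ctr_mul m (fun i => n' i / P.L), ← hn']
    rw [hctr] at hN
    have t1 := tri x x' (P.ctr m (fun i => n' i / P.L))
    have hn : n = fun i => n' i / P.L := P.cell_eq h.cell (by linarith)
    rw [← hn] at t1 hN
    have hδ : δ = δ' := by
      funext i
      have h1 := congrFun hf i
      have h2 := par_near P.L hL1 (n i) (δ' i) (h'.del i)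
      have h3 : 2 * n' i = 2 * P.L * n i := by
        rw [hn]; have := congrFun hn' i; simp only at this ⊢; linarith
      simp only [h3, h2] at h1
      omega
    have hl : lab = Inn P.L m n δ := by
      rcases hz with ⟨z1, rfl⟩ | ⟨rfl, ⟨z1, z2⟩ | ⟨z1, z2, z3⟩⟩ | ⟨rfl, z1, z2, z3⟩
      · rfl
      · exact (npre z2).elim
      · exfalso; linarith
      · exfalso; linarith
    rw [hl, hl', hn, hδ]
    simp [Inn, hs]
  · have hl' : lab' = Inh P.L (m + 1) (fun i => 2 * n' i + δ' i) := by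
      rcases hz' with ⟨w1, rfl⟩ | ⟨rfl, _⟩ | ⟨rfl, w1, w2, w3⟩
      · exact Inn_fresh _ _ _ _ (fun hs => hin ⟨hs, w1⟩)
      · rfl
      · exact (npost w1).elim
    have t2 := tri x' x (P.ctr m n)
    rw [norm_sub_rev x' x] at t2
    have nin : ¬ ‖x - P.ctr m n‖ ≤ P.ρ j * y := by
      intro hN
      have hn : n' = fun i => P.L * n i := P.cell_eq h'.cell (by rw [P.ctr_mul]; linarith)
      have hs : Settled P.L n' := fun i => by rw [hn]; exact dvd_mul_right _ _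
      have hctr : P.ctr (m + 1) n' = P.ctr m n := by rw [hn, P.ctr_mul]
      rcases hz' with ⟨w1, _⟩ | ⟨_, ⟨w1, w2⟩ | ⟨w1, w2, w3⟩⟩ | ⟨_, w1, w2, w3⟩
      · exact hin ⟨hs, w1⟩
      · exact w1 hs
      · rw [hctr] at w2; linarith
      · exact npost w1
    rw [hl']
    rcases hz with ⟨z1, _⟩ | ⟨rfl, ⟨z1, z2⟩ | ⟨z1, z2, z3 | z3⟩⟩ | ⟨rfl, z1, z2, z3⟩
    · exact (nin z1).elim
    · exact (npre z2).elim
    · exact (npre z3).elim
    · have hsp : Sp P.L (fun i => 2 * n' i + δ' i) := by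
        refine ⟨n, z1, fun i => ?_⟩
        apply face_near (P.spos (m + 1)) (by linarith) (h'.face i)
        have h1 := coord_le x' (P.ctr m n) i
        have h2 : P.ctr m n i = 2 * P.s (m + 1) * ((↑P.L * n i : ℤ) : ℝ) := by
          rw [← P.ctr_mul m n]; rfl
        rw [h2] at h1
        linarith
      simp only [Inh, hsp, if_true, hf]
    · have hsp : ¬ Sp P.L (fun i => 2 * n' i + δ' i) := by
        rintro ⟨n'', w1, w2⟩
        have h1 : ‖x' - P.ctr m n''‖ ≤ 2 * P.s (m + 1) - P.Q * P.a j * y' := by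
          rw [pi_norm_le_iff_of_nonneg (by linarith)]
          intro i
          rw [← P.ctr_mul m n'']
          exact face_bound (by linarith) (by linarith) (h'.face i) (w2 i)
        have t1 := tri x x' (P.ctr m n'')
        have hn : n = n'' := P.cell_eq h.cell (by linarith)
        subst hn
        have := z3 w1
        linarith
      simp only [Inh, hsp, if_false, hf]

lemma u_anti {m m' : ℕ} (h : m ≤ m') : P.u m' ≤ P.u m := by
  unfold u
  have := P.L8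
  exact inv_anti₀ (by positivity) (pow_le_pow_right₀ (by linarith) h)

lemma level_le {x x' : Fin k → ℝ} {y y' : ℝ} {m m' : ℕ} (h : P.u (m + 1) < y) (h' : y' ≤ P.u m')
    (hc : Close P.E x y x' y') : m' ≤ m + 1 := by
  by_contra hn
  have h1 := P.u_anti (by omega : m + 1 + 1 ≤ m')
  have h2 := P.u_succ (m + 1)
  have h3 := hc.r1
  have h4 : P.E ≤ P.L := by
    have := P.Qle (by omega : 1 ≤ k + 3)
    have := P.hL; have := P.EQ; have := P.hE
    simp only [pow_one] at *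
    linarith
  have h5 := P.upos (m + 1 + 1)
  have h6 := P.hE
  have : P.E * y' ≤ P.L * P.u (m + 1 + 1) := by
    calc P.E * y' ≤ P.E * P.u (m + 1 + 1) := by gcongr; linarith
      _ ≤ _ := by gcongr
  linarith

/-- the point has colour `j` and label `lab` -/
def Lab (j : Fin (k + 1)) (x : Fin k → ℝ) (y : ℝ) (lab : ℕ × (Fin k → ℤ)) : Prop :=
  ∃ m n δ, P.Loc j x y m n δ ∧ P.Zone j x y m n δ lab

theorem lab_unique {j : Fin (k + 1)} {x x' : Fin k → ℝ} {y y' : ℝ} {lab lab' : ℕ × (Fin k → ℤ)}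
    (h : P.Lab j x y lab) (h' : P.Lab j x' y' lab') (hc : Close P.E x y x' y') : lab = lab' := by
  obtain ⟨m, n, δ, h, hz⟩ := h
  obtain ⟨m', n', δ', h', hz'⟩ := h'
  have h1 := P.level_le h.lo h'.hi hc
  have h2 := P.level_le h'.lo h.hi hc.symm
  rcases (by omega : m' = m ∨ m' = m + 1 ∨ m = m' + 1) with rfl | rfl | rfl
  · exact P.same_level h hz h' hz' hc
  · exact P.next_level h hz h' hz' hc
  · exact (P.next_level h' hz' h hz hc.symm).symm

theorem lab_comb {j : Fin (k + 1)} {x : Fin k → ℝ} {y : ℝ} {lab : ℕ × (Fin k → ℤ)}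
    (h : P.Lab j x y lab) : ∃ m n, P.u (m + 1) < y ∧ y ≤ P.u m ∧ ‖x - P.ctr m n‖ ≤ P.s m ∧
      Comb P.L lab m n := by
  obtain ⟨m, n, δ, h, hz⟩ := h
  have hL : 2 ≤ P.L := by have := P.L8'; omega
  refine ⟨m, n, h.lo, h.hi, h.cell, ?_⟩
  rcases hz with ⟨_, rfl⟩ | ⟨rfl, _⟩ | ⟨rfl, _⟩
  · exact (Inn_comb _ hL δ h.del m n).2
  · exact (Inh_comb _ hL m n δ h.del).2
  · refine ⟨n, 0, 0, fun i => ?_, fun i => by simp; positivity, fun i => by simp⟩
    simpa using h.del i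

end Par

end Pool.Agent.H674Z.Asd
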