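import Pool.Agent.H674Z.AsdCov
import Pool.Agent.H674Z.AsdDefs

set_option autoImplicit false

namespace Pool.Agent.H674Z.Asd

open Finset Filter Topology

variable {k : ℕ}

/-- the factor of the folding map -/
noncomputable def wt (p : Hyp k) : ℝ := if ‖p.1‖ ≤ 1 then 1 else (‖p.1‖ ^ 2)⁻¹
/-- horizontal coordinates of the folded point -/
noncomputable def fx (p : Hyp k) : Fin k → ℝ := fun i => wt p * p.1 i.castSucc
/-- height of the folded point -/
noncomputable def fy (p : Hyp k) : ℝ := wt p * p.1 (Fin.last k)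

lemma wt_pos (p : Hyp k) : 0 < wt p := by
  unfold wt
  split_ifs with h
  · norm_num
  · have : 0 < ‖p.1‖ := by linarith [not_le.1 h]
    positivity

lemma fy_pos (p : Hyp k) : 0 < fy p := mul_pos (wt_pos p) p.2

lemma fy_le (p : Hyp k) : fy p ≤ 1 := by
  have h1 : p.1 (Fin.last k) ≤ ‖p.1‖ := (le_abs_self _).trans (by
    simpa using PiLp.norm_apply_le p.1 (Fin.last k))
  unfold fy wt
  split_ifs with h
  · linarith
  · have h2 : 1 < ‖p.1‖ := not_le.1 h
    rw [inv_mul_le_iff₀ (by positivity)]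
    nlinarith

lemma fold_id (p q : Hyp k) : wt p * wt q * ‖p.1 - q.1‖ ^ 2 - ‖wt p • p.1 - wt q • q.1‖ ^ 2 =
    (wt q - wt p) * (wt p * ‖p.1‖ ^ 2 - wt q * ‖q.1‖ ^ 2) := by
  rw [norm_sub_sq_real, norm_sub_sq_real, norm_smul, norm_smul, real_inner_smul_left,
    real_inner_smul_right, Real.norm_of_nonneg (wt_pos p).le, Real.norm_of_nonneg (wt_pos q).le]
  ring

lemma fold_le (p q : Hyp k) : ‖wt p • p.1 - wt q • q.1‖ ^ 2 ≤ wt p * wt q * ‖p.1 - q.1‖ ^ 2 := by
  have h := fold_id p q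
  have : 0 ≤ (wt q - wt p) * (wt p * ‖p.1‖ ^ 2 - wt q * ‖q.1‖ ^ 2) := by
    unfold wt
    have n1 := norm_nonneg p.1
    have n2 := norm_nonneg q.1
    by_cases h1 : ‖p.1‖ ≤ 1 <;> by_cases h2 : ‖q.1‖ ≤ 1 <;> simp only [h1, h2, if_true, if_false]
    · simp
    · have h3 : 1 < ‖q.1‖ ^ 2 := by nlinarith [not_le.1 h2]
      have h4 : (‖q.1‖ ^ 2)⁻¹ ≤ 1 := inv_le_one_of_one_le₀ h3.le
      rw [inv_mul_cancel₀ (by linarith)]
      apply mul_nonneg_of_nonpos_of_nonpos <;> nlinarith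
    · have h3 : 1 < ‖p.1‖ ^ 2 := by nlinarith [not_le.1 h1]
      have h4 : (‖p.1‖ ^ 2)⁻¹ ≤ 1 := inv_le_one_of_one_le₀ h3.le
      rw [inv_mul_cancel₀ (by linarith)]
      apply mul_nonneg <;> nlinarith
    · have h3 : 1 < ‖p.1‖ ^ 2 := by nlinarith [not_le.1 h1]
      have h4 : 1 < ‖q.1‖ ^ 2 := by nlinarith [not_le.1 h2]
      rw [inv_mul_cancel₀ (by linarith), inv_mul_cancel₀ (by linarith)]
      simp
  linarith

lemma fold_eq (p q : Hyp k) (h : (‖p.1‖ ≤ 1 ↔ ‖q.1‖ ≤ 1)) :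
    ‖wt p • p.1 - wt q • q.1‖ ^ 2 = wt p * wt q * ‖p.1 - q.1‖ ^ 2 := by
  have h0 := fold_id p q
  have : (wt q - wt p) * (wt p * ‖p.1‖ ^ 2 - wt q * ‖q.1‖ ^ 2) = 0 := by
    unfold wt
    by_cases h1 : ‖p.1‖ ≤ 1
    · simp [h1, h.1 h1]
    · have h2 : ¬ ‖q.1‖ ≤ 1 := fun h2 => h1 (h.2 h2)
      have h3 : 1 < ‖p.1‖ ^ 2 := by nlinarith [not_le.1 h1]
      have h4 : 1 < ‖q.1‖ ^ 2 := by nlinarith [not_le.1 h2]
      rw [if_neg h1, if_neg h2, inv_mul_cancel₀ (by linarith), inv_mul_cancel₀ (by linarith)]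
      simp
  linarith

lemma fold_sum (p q : Hyp k) : ‖wt p • p.1 - wt q • q.1‖ ^ 2 =
    ∑ i, (fx p i - fx q i) ^ 2 + (fy p - fy q) ^ 2 := by
  rw [EuclideanSpace.real_norm_sq_eq, Fin.sum_univ_castSucc]
  simp [fx, fy]

lemma sq_le_of_hdist {p q : Hyp k} {T : ℝ} (h : hdist p q ≤ T) :
    ‖p.1 - q.1‖ ^ 2 ≤ Real.exp T * (p.1 (Fin.last k) * q.1 (Fin.last k)) := by
  have hp := mul_pos p.2 q.2
  have hs := Real.sqrt_pos.2 hp
  have h1 : Real.arsinh (dist p.1 q.1 / (2 * √(p.1 (Fin.last k) * q.1 (Fin.last k)))) ≤ T / 2 := by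
    unfold hdist at h; linarith
  have h2 := Real.sinh_le_sinh.2 h1
  rw [Real.sinh_arsinh, div_le_iff₀ (by positivity), dist_eq_norm, Real.sinh_eq] at h2
  have h3 : ‖p.1 - q.1‖ ≤ Real.exp (T / 2) * √(p.1 (Fin.last k) * q.1 (Fin.last k)) := by
    have := Real.exp_pos (-(T / 2))
    nlinarith
  calc ‖p.1 - q.1‖ ^ 2 ≤ (Real.exp (T / 2) * √(p.1 (Fin.last k) * q.1 (Fin.last k))) ^ 2 := by
        gcongr
    _ = _ := by
      rw [mul_pow, Real.sq_sqrt hp.le, ← Real.exp_nat_mul]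
      congr 2
      push_cast; ring

lemma hdist_le_of_sq {p q : Hyp k} {D : ℝ}
    (h : ‖p.1 - q.1‖ ^ 2 ≤ D * (p.1 (Fin.last k) * q.1 (Fin.last k))) :
    hdist p q ≤ 2 * Real.arsinh (√D / 2) := by
  have hp := mul_pos p.2 q.2
  have hs := Real.sqrt_pos.2 hp
  unfold hdist
  refine mul_le_mul_of_nonneg_left ?_ (by norm_num)
  rw [Real.arsinh_le_arsinh, div_le_iff₀ (by positivity), dist_eq_norm]
  have := Real.le_sqrt_of_sq_le h
  rw [Real.sqrt_mul' _ hp.le] at this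
  linarith

lemma close_of_hdist {p q : Hyp k} {T E : ℝ} (h : hdist p q ≤ T) (hE : Real.exp T + 2 ≤ E) :
    Par.Close E (fx p) (fy p) (fx q) (fy q) := by
  have h1 := sq_le_of_hdist h
  have h2 := fold_le p q
  have wp := wt_pos p
  have wq := wt_pos q
  have yp := fy_pos p
  have yq := fy_pos q
  have eT := Real.exp_pos T
  have h3 : ∑ i, (fx p i - fx q i) ^ 2 + (fy p - fy q) ^ 2 ≤ Real.exp T * (fy p * fy q) := by
    rw [← fold_sum]
    refine h2.trans ?_
    calc wt p * wt q * ‖p.1 - q.1‖ ^ 2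
        ≤ wt p * wt q * (Real.exp T * (p.1 (Fin.last k) * q.1 (Fin.last k))) := by gcongr
      _ = _ := by unfold fy; ring
  have h4 : 0 ≤ ∑ i, (fx p i - fx q i) ^ 2 := sum_nonneg fun i _ => sq_nonneg _
  have r1 : fy p ≤ E * fy q := by
    by_contra hc
    push Not at hc
    have : (Real.exp T + 2) * fy q < fy p := lt_of_le_of_lt (by gcongr) hc
    nlinarith [mul_pos yq yq, mul_pos yp (sub_pos.2 this)]
  have r2 : fy q ≤ E * fy p := by
    by_contra hc
    push Not at hc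
    have : (Real.exp T + 2) * fy p < fy q := lt_of_le_of_lt (by gcongr) hc
    nlinarith [mul_pos yp yp, mul_pos yq (sub_pos.2 this)]
  have h5 : ∀ i, (fx p i - fx q i) ^ 2 ≤ E * (fy p * fy q) := by
    intro i
    have := single_le_sum (f := fun i => (fx p i - fx q i) ^ 2) (fun i _ => sq_nonneg _)
      (mem_univ i)
    have : Real.exp T * (fy p * fy q) ≤ E * (fy p * fy q) := by gcongr; linarith
    nlinarith [sq_nonneg (fy p - fy q)]
  have hE0 : 0 < E := by linarith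
  refine ⟨?_, ?_, r1, r2⟩
  · rw [pi_norm_le_iff_of_nonneg (by positivity)]
    intro i
    apply abs_le_of_sq_le_sq _ (by positivity)
    refine (h5 i).trans ?_
    calc E * (fy p * fy q) ≤ E * (fy p * (E * fy p)) := by gcongr
      _ = _ := by ring
  · rw [pi_norm_le_iff_of_nonneg (by positivity)]
    intro i
    apply abs_le_of_sq_le_sq _ (by positivity)
    refine (h5 i).trans ?_
    calc E * (fy p * fy q) ≤ E * ((E * fy q) * fy q) := by gcongr
      _ = _ := by ring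

lemma box_hdist (P : Par k) {p q : Hyp k} (hs : (‖p.1‖ ≤ 1 ↔ ‖q.1‖ ≤ 1)) {m : ℕ} {n : Fin k → ℤ}
    (a1 : P.u (m + 1) < fy p) (a2 : fy p ≤ P.u m) (a3 : ‖fx p - P.ctr m n‖ ≤ P.s m)
    (b1 : P.u (m + 1) < fy q) (b2 : fy q ≤ P.u m) (b3 : ‖fx q - P.ctr m n‖ ≤ P.s m) :
    hdist p q ≤ 2 * Real.arsinh (√((k * (2 * P.h) ^ 2 + 1) * P.L ^ 2) / 2) := by
  apply hdist_le_of_sq
  have h1 := fold_eq p q hs
  rw [fold_sum] at h1
  have up := P.upos (m + 1)
  have up' := P.upos m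
  have h2 : ∀ i, (fx p i - fx q i) ^ 2 ≤ (2 * P.h) ^ 2 * P.u m ^ 2 := by
    intro i
    have t1 := abs_le.1 ((Par.coord_le _ _ i).trans a3)
    have t2 := abs_le.1 ((Par.coord_le _ _ i).trans b3)
    rw [← mul_pow, mul_assoc]
    apply sq_le_sq'
    · change -(2 * P.s m) ≤ _; linarith
    · change _ ≤ 2 * P.s m; linarith
  have h3 : ∑ i, (fx p i - fx q i) ^ 2 ≤ k * ((2 * P.h) ^ 2 * P.u m ^ 2) := by
    simpa using sum_le_card_nsmul univ _ _ (fun i _ => h2 i)
  have h4 : (fy p - fy q) ^ 2 ≤ P.u m ^ 2 := by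
    apply sq_le_sq' <;> linarith
  have h5 : P.u m ^ 2 ≤ P.L ^ 2 * (fy p * fy q) := by
    rw [P.u_succ m, mul_pow, sq (P.u (m + 1))]
    gcongr
    linarith
  have h6 : wt p * wt q * ‖p.1 - q.1‖ ^ 2 ≤
      (k * (2 * P.h) ^ 2 + 1) * (P.L ^ 2 * (fy p * fy q)) := by
    calc _ ≤ (k * (2 * P.h) ^ 2 + 1) * P.u m ^ 2 := by rw [← h1]; linarith
      _ ≤ _ := by gcongr
  have wp := wt_pos p
  have wq := wt_pos q
  apply le_of_mul_le_mul_left _ (mul_pos wp wq)
  refine h6.trans (le_of_eq ?_)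
  unfold fy
  ring

theorem main (hk : 1 ≤ k) (e : ℕ) (he : 3 ≤ e) {V : Type*} (X : SimpleGraph V) (hc : X.Connected)
    (hd : BddDeg X) (hq : QuasiIsomHyp k X) : AsdimLE X (oPoly e) k := by
  classical
  obtain ⟨q, A, B, hA, hB, hq, -⟩ := hq
  obtain ⟨Δ, hΔ⟩ := hd
  intro r hr
  set E := Real.exp (A * (2 * r) + B) + 2 with hE
  have hE1 : 1 ≤ E := by have := Real.exp_pos (A * (2 * r) + B); linarith
  let P : Par k := ⟨E, 2 * E ^ 2 + 1, ⌈(2 * E ^ 2 + 1) ^ (k + 3)⌉₊ * (2 * E ^ 2 + 1) ^ (2 * k + 3),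
    ⌈(2 * E ^ 2 + 1) ^ (k + 3)⌉₊, hE1, by linarith, Nat.le_ceil _, le_rfl⟩
  have hPE : P.E = E := rfl
  set pc : Fin (k + 1) → ℕ × (Fin k → ℤ) → Set V :=
    fun j lab => {v | P.Lab j (fx (q v)) (fy (q v)) lab} with hpc
  refine ⟨{U | ∃ j lab, U = pc j lab}, ?_, ?_, ?_⟩
  · ext v
    obtain ⟨j, lab, h⟩ := P.cover hk (fx (q v)) (fy (q v)) (fy_pos _) (fy_le _)
    simp only [Set.mem_sUnion, Set.mem_univ, iff_true]
    exact ⟨pc j lab, ⟨j, lab, rfl⟩, h⟩
  · intro x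
    set g : Fin (k + 1) → Set V := fun j =>
      {v | ∃ lab, (∃ z ∈ pc j lab, (X.dist x z : ℝ) ≤ r) ∧ v ∈ pc j lab} with hg
    have h1 : {U ∈ {U | ∃ j lab, U = pc j lab} | ∃ z ∈ U, (X.dist x z : ℝ) ≤ r} ⊆
        g '' Set.univ := by
      rintro U ⟨⟨j, lab, rfl⟩, z, hz, hz'⟩
      refine ⟨j, trivial, ?_⟩
      ext v
      constructor
      · rintro ⟨lab', ⟨z', h1, h2⟩, h3⟩
        have h4 : (X.dist z z' : ℝ) ≤ 2 * r := by
          have h5 := hc.dist_triangle (u := z) (v := x) (w := z')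
          rw [X.dist_comm (u := z) (v := x)] at h5
          have : (X.dist z z' : ℝ) ≤ X.dist x z + X.dist x z' := by exact_mod_cast h5
          linarith
        have h6 : hdist (q z) (q z') ≤ A * (2 * r) + B := (hq z z').2.trans (by gcongr)
        have h7 : lab = lab' := P.lab_unique hz h1 (close_of_hdist h6 le_rfl)
        rw [h7]; exact h3
      · exact fun hv => ⟨lab, ⟨z, hz, hz'⟩, hv⟩
    refine (Set.encard_le_encard h1).trans ((Set.encard_image_le _ _).trans ?_)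
    simp
  · obtain ⟨R0, hR0⟩ := exists_nat_ge
      (A * (2 * Real.arsinh (√((k * (2 * P.h) ^ 2 + 1) * P.L ^ 2) / 2) + B))
    set C0 : ℝ := (((Δ + 1) ^ R0 * 2 * (2 ^ k * (2 * P.L + 3) ^ k) * 4 : ℕ) : ℝ) with hC0
    have hC : 0 ≤ C0 := by positivity
    refine ⟨fun t => C0 * (A * t + (B + 4)) ^ 2, ⟨?_, ?_, ?_⟩, ?_⟩
    · intro t ht t' _ htt
      have ht : 0 ≤ t := ht
      dsimp only
      gcongr
    · intro t ht
      positivity
    · have h1 : Tendsto (fun t : ℝ => C0 * (A + (B + 4)) ^ 2 * t⁻¹) atTop (𝓝 0) := by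
        have := (tendsto_inv_atTop_zero (𝕜 := ℝ)).const_mul (C0 * (A + (B + 4)) ^ 2)
        rwa [mul_zero] at this
      refine squeeze_zero' ?_ ?_ h1
      · filter_upwards [eventually_ge_atTop 1] with t ht
        positivity
      · filter_upwards [eventually_ge_atTop 1] with t ht
        have h2 : t ^ 3 ≤ t ^ e := pow_le_pow_right₀ ht he
        have h3 : A * t + (B + 4) ≤ (A + (B + 4)) * t := by nlinarith
        calc C0 * (A * t + (B + 4)) ^ 2 / t ^ e ≤ C0 * ((A + (B + 4)) * t) ^ 2 / t ^ 3 := by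
              gcongr
          _ = _ := by field_simp
    · rintro U ⟨j, lab, rfl⟩ x hx t ht
      obtain ⟨Bl, -, hBl⟩ := Reg.ball_card hc Δ hΔ x ⌈t⌉₊
      have hfin : {z ∈ pc j lab | (X.dist x z : ℝ) ≤ t}.Finite := by
        refine Bl.finite_toSet.subset fun z hz => hBl z ?_
        exact_mod_cast hz.2.trans (Nat.le_ceil t)
      refine ⟨hfin, ?_⟩
      rw [Set.ncard_eq_toFinset_card _ hfin]
      set G := hfin.toFinset with hG
      have hG' : ∀ z ∈ G, z ∈ pc j lab ∧ (X.dist x z : ℝ) ≤ t := fun z hz => by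
        simpa [hG] using hz
      choose! bm bn c1 c2 c3 c4 using fun z (hz : z ∈ G) => P.lab_comb (hG' z hz).1
      set τ := ⌈A * t + B⌉₊ + 1 with hτ
      have hT : 0 ≤ A * t + B := by positivity
      have hτ1 : Real.exp (A * t + B) + 2 ≤ (P.L : ℝ) ^ τ := by
        have L8 := P.L8
        have h1 : Real.exp (A * t + B) ≤ (P.L : ℝ) ^ ⌈A * t + B⌉₊ := by
          calc Real.exp (A * t + B) ≤ Real.exp ((⌈A * t + B⌉₊ : ℕ) * 1) := by
                rw [mul_one]; exact Real.exp_le_exp.2 (Nat.le_ceil _)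
            _ = Real.exp 1 ^ ⌈A * t + B⌉₊ := Real.exp_nat_mul _ _
            _ ≤ _ := by gcongr; linarith [Real.exp_one_lt_d9]
        have h2 : (1 : ℝ) ≤ (P.L : ℝ) ^ ⌈A * t + B⌉₊ := one_le_pow₀ (by linarith)
        rw [hτ, pow_succ]
        nlinarith
      have hτ2 : (τ : ℝ) ≤ A * t + B + 2 := by
        have := (Nat.ceil_lt_add_one hT).le
        rw [hτ]; push_cast; linarith
      have hcount := P.count lab τ (fx (q x)) (fy (q x)) (G.image fun z => (bm z, bn z)) (by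
        intro b hb
        obtain ⟨z, hz, rfl⟩ := mem_image.1 hb
        refine ⟨c4 z hz, _, _, c1 z hz, c2 z hz, c3 z hz, close_of_hdist ?_ hτ1⟩
        exact (hq x z).2.trans (by gcongr; exact (hG' z hz).2))
      have hmul : G.card ≤ ((Δ + 1) ^ R0 * 2) * (G.image fun z => (bm z, bn z)).card := by
        apply card_le_mul_card_image
        rintro ⟨m, n⟩ -
        set H := G.filter fun z => (bm z, bn z) = (m, n) with hH
        have : H.card ≤ (Δ + 1) ^ R0 * (univ : Finset Bool).card := by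
          apply card_le_mul_card_image_of_maps_to (f := fun z => decide (‖(q z).1‖ ≤ 1))
          · intro _ _; exact mem_univ _
          · intro b _
            rcases (H.filter fun z => decide (‖(q z).1‖ ≤ 1) = b).eq_empty_or_nonempty with
              h0 | ⟨z0, hz0⟩
            · rw [h0]; simp
            · obtain ⟨B2, hB2, hB2'⟩ := Reg.ball_card hc Δ hΔ z0 R0
              refine (card_le_card fun z hz => hB2' z ?_).trans hB2
              obtain ⟨hz0', e0⟩ := mem_filter.1 hz0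
              obtain ⟨hz', e1⟩ := mem_filter.1 hz
              clear hz0 hz
              rw [hH] at hz0' hz'
              obtain ⟨hz0, f0⟩ := mem_filter.1 hz0'
              obtain ⟨hz, f1⟩ := mem_filter.1 hz'
              clear hz0' hz' hH
              clear_value H
              obtain ⟨rfl, rfl⟩ := Prod.mk.inj f0
              obtain ⟨f2, f3⟩ := Prod.mk.inj f1
              have hs : ‖(q z0).1‖ ≤ 1 ↔ ‖(q z).1‖ ≤ 1 := decide_eq_decide.1 (e0.trans e1.symm)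
              have h8 := box_hdist P hs (c1 z0 hz0) (c2 z0 hz0) (c3 z0 hz0) (f2 ▸ c1 z hz)
                (f2 ▸ c2 z hz) (f2 ▸ f3 ▸ c3 z hz)
              have h9 := (hq z0 z).1
              have h10 : (X.dist z0 z : ℝ) ≤ R0 := by
                refine le_trans ?_ hR0
                rw [mul_comm, ← div_le_iff₀ (by linarith)]
                linarith
              exact_mod_cast h10
        simpa using this
      have hfinal : G.card ≤ ((Δ + 1) ^ R0 * 2 * (2 ^ k * (2 * P.L + 3) ^ k) * 4) * (τ + 2) ^ 2 := by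
        refine hmul.trans ((Nat.mul_le_mul_left _ hcount).trans ?_)
        calc _ ≤ (Δ + 1) ^ R0 * 2 * (2 ^ k * ((τ + 2) * (2 * P.L + 3) ^ k) * (4 * (τ + 2))) := by
              gcongr; omega
          _ = _ := by ring
      calc (G.card : ℝ) ≤ C0 * ((τ + 2 : ℕ) : ℝ) ^ 2 := by rw [hC0]; exact_mod_cast hfinal
        _ ≤ C0 * (A * t + (B + 4)) ^ 2 := by gcongr; push_cast; linarith

end Pool.Agent.H674Z.Asd
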