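import Mathlib

set_option autoImplicit false

namespace Pool.Agent.H674Z.Asd

/-- parameters of the pattern -/
structure Par (k : ℕ) where
  E : ℝ
  Q : ℝ
  h : ℝ
  L : ℕ
  hE : 1 ≤ E
  hQ : 2 * E ^ 2 < Q
  hL : Q ^ (k + 3) ≤ L
  hh : L * Q ^ (2 * k + 3) ≤ h

variable {k : ℕ}

/-- the face of a one-dimensional grid a point belongs to -/
def IsFace (s A0 A1 x : ℝ) (f : ℤ) : Prop :=
  (∃ n : ℤ, f = 2 * n ∧ |x - 2 * s * n| ≤ A0) ∨
    (∃ n : ℤ, f = 2 * n + 1 ∧ 2 * s * n + A1 ≤ x ∧ x ≤ 2 * s * (n + 1) - A1)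

/-- the face of the coarser grid -/
def par (L : ℕ) (f : ℤ) : ℤ := 2 * (f / (2 * L)) + if f % (2 * L) = 0 then 0 else 1

lemma face_not_lt {s A0 A1 A0' A1' x x' e : ℝ} {f f' : ℤ} (hs : 0 < s)
    (h : IsFace s A0 A1 x f) (h' : IsFace s A0' A1' x' f') (hd : x' - x ≤ e)
    (h1 : A0 + A0' + e < 2 * s) (h2 : A0 + e < A1') (h3 : A0' + e < A1) (h4 : 0 ≤ A0)
    (h5 : 0 ≤ A0') (he : 0 ≤ e) : ¬ f < f' := by
  intro hlt
  rcases h with ⟨n, rfl, hn⟩ | ⟨n, rfl, hn1, hn2⟩ <;>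
    rcases h' with ⟨n', rfl, hn'⟩ | ⟨n', rfl, hn1', hn2'⟩
  · have : (n : ℝ) + 1 ≤ n' := by exact_mod_cast (by omega : n + 1 ≤ n')
    have := abs_le.1 hn
    have := abs_le.1 hn'
    nlinarith
  · have : (n : ℝ) ≤ n' := by exact_mod_cast (by omega : n ≤ n')
    have := abs_le.1 hn
    nlinarith
  · have : (n : ℝ) + 1 ≤ n' := by exact_mod_cast (by omega : n + 1 ≤ n')
    have := abs_le.1 hn'
    nlinarith
  · have : (n : ℝ) + 1 ≤ n' := by exact_mod_cast (by omega : n + 1 ≤ n')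
    nlinarith

lemma face_eq {s A0 A1 A0' A1' x x' e : ℝ} {f f' : ℤ} (hs : 0 < s)
    (h : IsFace s A0 A1 x f) (h' : IsFace s A0' A1' x' f') (hd : |x - x'| ≤ e)
    (h1 : A0 + A0' + e < 2 * s) (h2 : A0 + e < A1') (h3 : A0' + e < A1) (h4 : 0 ≤ A0)
    (h5 : 0 ≤ A0') : f = f' := by
  have he : 0 ≤ e := (abs_nonneg _).trans hd
  have hd' := abs_le.1 hd
  have a1 := face_not_lt hs h h' (e := e) (by linarith) h1 h2 h3 h4 h5 he
  have a2 := face_not_lt hs h' h (e := e) (by linarith) (by linarith) h3 h2 h5 h4 he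
  omega

lemma par_decomp (L : ℕ) (hL : 1 ≤ L) (f : ℤ) : ∃ n r : ℤ, f = 2 * L * n + r ∧ 0 ≤ r ∧ r < 2 * L ∧
    par L f = 2 * n + if r = 0 then 0 else 1 := by
  have hpos : (0 : ℤ) < 2 * L := by positivity
  exact ⟨f / (2 * L), f % (2 * L), (Int.mul_ediv_add_emod _ _).symm,
    Int.emod_nonneg _ hpos.ne', Int.emod_lt_of_pos _ hpos, rfl⟩

lemma par_near (L : ℕ) (hL : 1 ≤ L) (n δ : ℤ) (hδ : |δ| ≤ 1) :
    par L (2 * L * n + δ) = 2 * n + δ := by
  obtain ⟨n', r, h1, h2, h3, h4⟩ := par_decomp L hL (2 * L * n + δ)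
  have hδ' := abs_le.1 hδ
  have hL' : (1 : ℤ) ≤ L := by exact_mod_cast hL
  rw [h4]
  have h5 : n' ≤ n := by
    by_contra hc
    have : n + 1 ≤ n' := by omega
    nlinarith
  have h6 : n - 1 ≤ n' := by
    by_contra hc
    have : n' + 2 ≤ n := by omega
    nlinarith
  rcases (by omega : n' = n ∨ n' = n - 1) with rfl | rfl
  · have : δ = r := by linarith
    subst this
    split_ifs <;> omega
  · have : r = 2 * L + δ := by linarith
    split_ifs <;> omega

lemma par_adj (L : ℕ) (hL : 1 ≤ L) (f : ℤ) :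
    ∃ n : ℤ, |2 * n - par L f| ≤ 1 ∧ |f - 2 * L * n| ≤ L := by
  obtain ⟨n, r, h1, h2, h3, h4⟩ := par_decomp L hL f
  rw [h4]
  by_cases hr : r ≤ L
  · refine ⟨n, ?_, ?_⟩
    · split_ifs <;> simp
    · rw [abs_le]; constructor <;> linarith
  · refine ⟨n + 1, ?_, ?_⟩
    · rw [if_neg (by omega), abs_le]; constructor <;> linarith
    · rw [abs_le]; constructor <;> linarith

lemma face_par (L : ℕ) (hL : 1 ≤ L) {s A0 A1 x : ℝ} {f : ℤ} (hs : 0 < s) (h1 : A0 + A1 ≤ 2 * s)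
    (h : IsFace s A0 A1 x f) : IsFace (L * s) A0 A1 x (par L f) := by
  obtain ⟨n, r, e1, e2, e3, e4⟩ := par_decomp L hL f
  rw [e4]
  rcases h with ⟨n', e5, hn⟩ | ⟨n', e5, hn1, hn2⟩
  · by_cases hr : r = 0
    · left
      refine ⟨n, by simp [hr], ?_⟩
      have : n' = L * n := by rw [hr] at e1; linarith
      rw [this] at hn
      push_cast at hn
      convert hn using 2
      ring
    · right
      refine ⟨n, by simp [hr], ?_⟩
      have a1 : L * n + 1 ≤ n' := by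
        have : 2 * (L * n) + r = 2 * n' := by linarith
        omega
      have a2 : n' + 1 ≤ L * n + L := by
        have : 2 * (L * n) + r = 2 * n' := by linarith
        omega
      have b1 : (L : ℝ) * n + 1 ≤ n' := by exact_mod_cast a1
      have b2 : (n' : ℝ) + 1 ≤ L * n + L := by exact_mod_cast a2
      have := abs_le.1 hn
      constructor <;> nlinarith
  · have hr : r ≠ 0 := by
      have : 2 * (L * n) + r = 2 * n' + 1 := by linarith
      omega
    right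
    refine ⟨n, by simp [hr], ?_⟩
    have a1 : L * n ≤ n' := by
      have : 2 * (L * n) + r = 2 * n' + 1 := by linarith
      omega
    have a2 : n' + 1 ≤ L * n + L := by
      have : 2 * (L * n) + r = 2 * n' + 1 := by linarith
      omega
    have b1 : (L : ℝ) * n ≤ n' := by exact_mod_cast a1
    have b2 : (n' : ℝ) + 1 ≤ L * n + L := by exact_mod_cast a2
    constructor <;> nlinarith

lemma face_bound {s A0 A1 x : ℝ} {f n : ℤ} (h1 : A0 + A1 ≤ 2 * s) (h0 : 0 ≤ A1)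
    (h : IsFace s A0 A1 x f) (hf : |f - 2 * n| ≤ 1) : |x - 2 * s * n| ≤ 2 * s - A1 := by
  have hf' := abs_le.1 hf
  rcases h with ⟨n', rfl, hn⟩ | ⟨n', rfl, hn1, hn2⟩
  · have : n' = n := by omega
    subst this
    linarith
  · rcases (by omega : n' = n ∨ n' = n - 1) with rfl | rfl
    · rw [abs_le]; constructor <;> nlinarith
    · push_cast at hn1 hn2
      rw [abs_le]; constructor <;> nlinarith

lemma face_near {s A0 A1 x : ℝ} {f n : ℤ} (hs : 0 < s) (h01 : 0 ≤ A0 + A1)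
    (h : IsFace s A0 A1 x f) (hx : |x - 2 * s * n| < 2 * s - A0) : |f - 2 * n| ≤ 1 := by
  have hx' := abs_lt.1 hx
  rw [abs_le]
  rcases h with ⟨n', rfl, hn⟩ | ⟨n', rfl, hn1, hn2⟩
  · have := abs_le.1 hn
    have a1 : (n' : ℝ) < n + 1 := by
      by_contra hc
      push Not at hc
      nlinarith
    have a2 : (n : ℝ) < n' + 1 := by
      by_contra hc
      push Not at hc
      nlinarith
    have b1 : n' < n + 1 := by exact_mod_cast a1
    have b2 : n < n' + 1 := by exact_mod_cast a2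
    omega
  · have a1 : (n' : ℝ) < n + 1 := by
      by_contra hc
      push Not at hc
      nlinarith
    have a2 : (n : ℝ) < n' + 2 := by
      by_contra hc
      push Not at hc
      nlinarith
    have b1 : n' < n + 1 := by exact_mod_cast a1
    have b2 : n < n' + 2 := by exact_mod_cast a2
    omega

lemma face_exists {s A0 A1 x : ℝ} {n : ℤ} (hx : |x - 2 * s * n| ≤ s) (h1 : A1 ≤ s)
    (hb : |x - 2 * s * n| ≤ A0 ∨ A1 ≤ |x - 2 * s * n|) :
    ∃ δ : ℤ, |δ| ≤ 1 ∧ IsFace s A0 A1 x (2 * n + δ) := by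
  have hx' := abs_le.1 hx
  rcases hb with hb | hb
  · exact ⟨0, by simp, Or.inl ⟨n, by simp, hb⟩⟩
  · rcases le_abs.1 hb with hb | hb
    · exact ⟨1, by simp, Or.inr ⟨n, rfl, by linarith, by linarith⟩⟩
    · exact ⟨-1, by simp, Or.inr ⟨n - 1, by ring, by push_cast; linarith, by push_cast; linarith⟩⟩

lemma int_eq_of_close {s : ℝ} (hs : 0 < s) {n n' : ℤ} (h : |2 * s * n - 2 * s * n'| < 2 * s) :
    n = n' := by
  have := abs_lt.1 h
  have a1 : (n' : ℝ) < n + 1 := by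
    by_contra hc
    push Not at hc
    nlinarith
  have a2 : (n : ℝ) < n' + 1 := by
    by_contra hc
    push Not at hc
    nlinarith
  have b1 : n' < n + 1 := by exact_mod_cast a1
  have b2 : n < n' + 1 := by exact_mod_cast a2
  omega

/-- central cells -/
def Settled (L : ℕ) (n : Fin k → ℤ) : Prop := ∀ i, (L : ℤ) ∣ n i

/-- faces of cells that are central twice -/
def Sp (L : ℕ) (l : Fin k → ℤ) : Prop := ∃ n, Settled L n ∧ ∀ i, |l i - 2 * (L * n i)| ≤ 1

open Classical in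
/-- inherited label of a face -/
noncomputable def Inh (L : ℕ) : ℕ → (Fin k → ℤ) → ℕ × (Fin k → ℤ)
  | 0, l => (0, fun i => par L (l i))
  | m + 1, l => if Sp L l then Inh L m (fun i => par L (l i)) else (m + 1, fun i => par L (l i))

open Classical in
/-- label of the inner zone -/
noncomputable def Inn (L : ℕ) : ℕ → (Fin k → ℤ) → (Fin k → ℤ) → ℕ × (Fin k → ℤ)
  | 0, n, δ => Inh L 0 (fun i => 2 * n i + δ i)
  | m + 1, n, δ => if Settled L n then Inn L m (fun i => n i / L) δ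
      else Inh L (m + 1) (fun i => 2 * n i + δ i)

lemma Inn_fresh (L : ℕ) (m : ℕ) (n δ : Fin k → ℤ) (h : ¬ Settled L n) :
    Inn L m n δ = Inh L m (fun i => 2 * n i + δ i) := by
  cases m with
  | zero => rfl
  | succ m => simp [Inn, h]

/-- cells that may carry a label -/
def Comb (L : ℕ) (lab : ℕ × (Fin k → ℤ)) (m : ℕ) (n : Fin k → ℤ) : Prop :=
  ∃ (n0 ν : Fin k → ℤ) (a : ℕ), (∀ i, |2 * n0 i - lab.2 i| ≤ 1) ∧ (∀ i, |ν i| ≤ L + 1) ∧
    ∀ i, 2 * n i = 2 * L ^ (m + 1 - lab.1) * n0 i + L ^ a * ν i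

lemma Inh_spec (L : ℕ) (hL : 2 ≤ L) : ∀ (m : ℕ) (l : Fin k → ℤ), (Inh L m l).1 ≤ m ∧
    ∃ n0 : Fin k → ℤ, (∀ i, |2 * n0 i - (Inh L m l).2 i| ≤ 1) ∧
      ∀ i, |l i - 2 * L ^ (m + 1 - (Inh L m l).1) * n0 i| ≤ L := by
  have hL1 : 1 ≤ L := by omega
  have hL' : (2 : ℤ) ≤ L := by exact_mod_cast hL
  have base : ∀ l : Fin k → ℤ, ∃ n0 : Fin k → ℤ, (∀ i, |2 * n0 i - par L (l i)| ≤ 1) ∧
      ∀ i, |l i - 2 * L * n0 i| ≤ L := by
    intro l
    choose n0 h1 h2 using fun i => par_adj L hL1 (l i)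
    exact ⟨n0, h1, h2⟩
  intro m
  induction m with
  | zero =>
    intro l
    simpa [Inh] using base l
  | succ m ih =>
    intro l
    by_cases hs : Sp L l
    · have e : Inh L (m + 1) l = Inh L m (fun i => par L (l i)) := by simp [Inh, hs]
      rw [e]
      obtain ⟨h1, n0, h2, h3⟩ := ih (fun i => par L (l i))
      refine ⟨by omega, n0, h2, fun i => ?_⟩
      obtain ⟨n, hn, hn'⟩ := hs
      set μ := (Inh L m (fun i => par L (l i))).1
      obtain ⟨b, hb⟩ : ∃ b, m + 1 - μ = b + 1 := ⟨m - μ, by omega⟩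
      have hb' : m + 1 + 1 - μ = b + 2 := by omega
      have h4 := h3 i
      have h5 := par_near L hL1 (n i) (l i - 2 * (L * n i)) (hn' i)
      rw [show 2 * (L : ℤ) * n i + (l i - 2 * (L * n i)) = l i by ring] at h5
      simp only [h5, hb] at h4
      obtain ⟨c, hc⟩ := hn i
      have h6 := abs_le.1 (hn' i)
      have h7 := abs_le.1 h4
      have h8 : c = L ^ b * n0 i := by
        rw [hc, pow_succ] at h7
        by_contra hne
        rcases lt_or_gt_of_ne hne with hlt | hlt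
        · have : c + 1 ≤ L ^ b * n0 i := hlt
          nlinarith
        · have : L ^ b * n0 i + 1 ≤ c := hlt
          nlinarith
      rw [hb', show l i - 2 * (L : ℤ) ^ (b + 2) * n0 i = l i - 2 * (L * n i) by rw [hc, h8]; ring]
      exact (hn' i).trans (by linarith)
    · have e : Inh L (m + 1) l = (m + 1, fun i => par L (l i)) := by simp [Inh, hs]
      rw [e]
      simpa using base l

lemma Inh_comb (L : ℕ) (hL : 2 ≤ L) (m : ℕ) (n δ : Fin k → ℤ) (hδ : ∀ i, |δ i| ≤ 1) :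
    (Inh L m (fun i => 2 * n i + δ i)).1 ≤ m ∧ Comb L (Inh L m (fun i => 2 * n i + δ i)) m n := by
  obtain ⟨h1, n0, h2, h3⟩ := Inh_spec L hL m (fun i => 2 * n i + δ i)
  refine ⟨h1, n0, fun i => 2 * n i - 2 * L ^ (m + 1 - (Inh L m (fun i => 2 * n i + δ i)).1) * n0 i,
    0, h2, fun i => ?_, fun i => by ring⟩
  have a1 := abs_le.1 (h3 i)
  have a2 := abs_le.1 (hδ i)
  rw [abs_le]
  constructor <;> linarith

lemma Inn_comb (L : ℕ) (hL : 2 ≤ L) (δ : Fin k → ℤ) (hδ : ∀ i, |δ i| ≤ 1) :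
    ∀ (m : ℕ) (n : Fin k → ℤ), (Inn L m n δ).1 ≤ m ∧ Comb L (Inn L m n δ) m n := by
  intro m
  induction m with
  | zero => intro n; exact Inh_comb L hL 0 n δ hδ
  | succ m ih =>
    intro n
    by_cases hs : Settled L n
    · have e : Inn L (m + 1) n δ = Inn L m (fun i => n i / L) δ := by simp [Inn, hs]
      rw [e]
      obtain ⟨h1, n0, ν, a, h2, h3, h4⟩ := ih (fun i => n i / L)
      refine ⟨by omega, n0, ν, a + 1, h2, h3, fun i => ?_⟩
      have h5 : n i = L * (n i / L) := (Int.mul_ediv_cancel' (hs i)).symm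
      have h6 : m + 1 + 1 - (Inn L m (fun i => n i / L) δ).1 =
          (m + 1 - (Inn L m (fun i => n i / L) δ).1) + 1 := by omega
      rw [h6, h5, pow_succ, pow_succ]
      linear_combination (L : ℤ) * h4 i
    · rw [Inn_fresh L _ n δ hs]
      exact Inh_comb L hL _ n δ hδ

end Pool.Agent.H674Z.Asd
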