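import Pool.Agent.H953Z.St

set_option autoImplicit false
open MeasureTheory Filter
open scoped Manifold

namespace Pool.Agent.H674Z.Mk

open Pool.Agent.H953Z

lemma measurable_shift {A : Type} [MeasurableSpace A] : Measurable (shift : (ℤ → A) → ℤ → A) :=
  measurable_pi_lambda _ fun n => measurable_pi_apply (n + 1)

theorem thm_lower : S_lower := by
  intro X A _ _ _ _ _ T nm L hc μ hμ herg hae
  classical
  have hne : (nm '' L).Nonempty := hae.exists
  obtain ⟨_, x0, -, -⟩ := hne
  have : StandardBorelSpace L := hc.measL.standardBorel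
  have he : MeasurableEmbedding (fun z : L => nm z) :=
    (hc.meas.comp measurable_subtype_coe).measurableEmbedding
      (fun a b h => Subtype.ext (hc.inj a.2 b.2 h))
  set ι : (ℤ → A) → X := Function.extend (fun z : L => nm z) (fun z : L => (z : X)) (fun _ => x0)
    with hι
  have hιm : Measurable ι := he.measurable_extend measurable_subtype_coe measurable_const
  have hι1 : ∀ z ∈ L, ι (nm z) = z := fun z hz => he.injective.extend_apply _ _ (⟨z, hz⟩ : L)
  have h1 : ∀ᵐ σ ∂μ, nm (ι σ) = σ := by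
    filter_upwards [hae] with σ ⟨z, hz, e⟩
    rw [← e, hι1 z hz]
  have h2 : ∀ᵐ σ ∂μ, ι (shift σ) = T (ι σ) := by
    filter_upwards [hae] with σ ⟨z, hz, e⟩
    have hz' : T z ∈ L := by rw [← hc.inv] at hz; exact hz
    rw [← e, ← hc.equiv, hι1 z hz, hι1 _ hz']
  refine ⟨μ.map ι, Measure.isProbabilityMeasure_map hιm.aemeasurable, ⟨⟨hc.measT, ?_⟩, ⟨?_⟩⟩, ?_⟩
  · rw [Measure.map_map hc.measT hιm]
    conv_rhs => rw [← herg.toMeasurePreserving.map_eq]
    rw [Measure.map_map hιm measurable_shift]
    exact Measure.map_congr (h2.mono fun σ h => h.symm)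
  · intro s hs hinv
    have h3 : shift ⁻¹' (ι ⁻¹' s) =ᵐ[μ] ι ⁻¹' s := by
      filter_upwards [h2] with σ h
      change (ι (shift σ) ∈ s) = (ι σ ∈ s)
      rw [h]
      exact congrArg (ι σ ∈ ·) hinv
    have h4 := herg.quasiErgodic.aeconst_set₀ (hιm hs).nullMeasurableSet h3
    rw [eventuallyConst_set] at h4 ⊢
    rcases h4 with h4 | h4
    · exact Or.inl ((ae_map_iff hιm.aemeasurable hs).2 h4)
    · exact Or.inr ((ae_map_iff hιm.aemeasurable hs.compl).2 h4)
  · rw [Measure.map_map hc.meas hιm]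
    exact (Measure.map_congr h1).trans Measure.map_id

lemma red_inj (P : Par) {σ σ' : ℤ → Al} (h : σ ∈ Adm P) (h' : σ' ∈ Adm P)
    (he : (fun t => red (σ t)) = fun t => red (σ' t)) : σ = σ' := by
  have hb : base σ = base σ' := by
    funext t
    have := congrArg Option.isSome (congrFun he t)
    simpa [red, base] using this
  funext t
  have h1 : flag σ t ↔ flag σ' t := by rw [h.2 t, h'.2 t, hb]
  have h2 : red (σ t) = red (σ' t) := congrFun he t
  unfold flag at h1
  rcases e1 : σ t with _ | ⟨b, _ | c⟩ <;> rcases e2 : σ' t with _ | ⟨b', _ | c'⟩ <;>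
    simp_all [red]

theorem thm_final : S_markov → S_upper → S_stage → S_meas → S_geo → S_sphere → S_target := by
  intro hM hU ⟨P, h, hpos, hcount, hek⟩ hmeas hgeo hsph H
  classical
  obtain ⟨F, nm, L, hD, hC, hc, himg, hfin⟩ := hgeo P.toPar
  obtain ⟨f, e, he, hfe, hfix⟩ := hsph F hD hC
  set nmM : Sph → ℤ → Al := Function.extend e nm (fun _ _ => none) with hnm
  have hn1 : ∀ z, nmM (e z) = nm z := fun z => he.injective.extend_apply _ _ z
  have hn2 : ∀ p, p ∉ Set.range e → nmM p = fun _ => none := fun p hp =>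
    Function.extend_apply' _ _ _ hp
  have hfm : Measurable (f : Sph → Sph) := f.continuous.measurable
  have hpre : ∀ s : Set (ℝ × ℝ), (f : Sph → Sph) ⁻¹' (e '' s) = e '' (F ⁻¹' s) := by
    intro s
    ext p
    by_cases hp : p ∈ Set.range e
    · obtain ⟨z, rfl⟩ := hp
      simp only [Set.mem_preimage, hfe, he.injective.mem_set_image]
    · simp only [Set.mem_preimage, hfix p hp]
      exact ⟨fun h => (hp (Set.image_subset_range _ _ h)).elim,
        fun h => (hp (Set.image_subset_range _ _ h)).elim⟩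
  have hcM : Coded (f : Sph → Sph) nmM (e '' L) := by
    refine ⟨hfm, he.measurable_extend hc.meas measurable_const, fun p => ?_,
      he.measurableSet_image.2 hc.measL, by rw [hpre, hc.inv], ?_⟩
    · by_cases hp : p ∈ Set.range e
      · obtain ⟨z, rfl⟩ := hp
        rw [hfe, hn1, hn1, hc.equiv]
      · rw [hfix p hp, hn2 p hp]; rfl
    · rintro _ ⟨z, hz, rfl⟩ _ ⟨z', hz', rfl⟩ h
      rw [hn1, hn1] at h
      rw [hc.inj hz hz' h]
  have himgM : nmM '' (e '' L) = Adm P.toPar := by
    rw [Set.image_image]; simp only [hn1]; exact himg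
  have hcR : Coded (f : Sph → Sph) (fun p t => red (nmM p t)) (e '' L) := by
    refine ⟨hfm, measurable_pi_lambda _ fun t => ?_, fun p => ?_, hcM.measL, hcM.inv, ?_⟩
    · exact (Measurable.of_discrete (f := red)).comp ((measurable_pi_apply t).comp hcM.meas)
    · rw [hcM.equiv]; rfl
    · intro p hp p' hp' h
      exact hcM.inj hp hp' (red_inj P.toPar (himgM ▸ Set.mem_image_of_mem _ hp)
        (himgM ▸ Set.mem_image_of_mem _ hp') h)
  have hcount' : CountLe ((fun p t => red (nmM p t)) '' (e '' L)) h := by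
    rw [← himgM, Set.image_image] at hcount
    exact hcount
  have hent : ∀ ν : Measure Sph, IsProbabilityMeasure ν →
      MeasurePreserving (f : Sph → Sph) ν ν → EntLe (f : Sph → Sph) ν h := by
    intro ν hν hpres
    refine hU Sph Ar f _ _ hcR h hpos.le hcount' ν hν hpres ?_
    have hfinite : IsFiniteMeasure (ν.comap e) := ⟨by
      rw [he.comap_apply]; exact measure_lt_top _ _⟩
    have hp2 : MeasurePreserving F (ν.comap e) (ν.comap e) := by
      refine ⟨hc.measT, ?_⟩
      ext s hs
      rw [Measure.map_apply hc.measT hs, he.comap_apply, he.comap_apply, ← hpre,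
        hpres.measure_preimage (he.measurableSet_image.2 hs).nullMeasurableSet]
    have h1 := hfin _ hfinite hp2
    rw [ae_iff, he.comap_apply] at h1
    rw [ae_iff]
    refine measure_mono_null (fun p hp => ?_) h1
    simp only [Set.mem_ofPred_eq, not_or] at hp
    by_cases hp' : p ∈ Set.range e
    · obtain ⟨z, rfl⟩ := hp'
      refine ⟨z, ?_, rfl⟩
      simp only [Set.mem_ofPred_eq, not_or]
      exact ⟨fun hz => hp.1 ⟨z, hz, rfl⟩, fun hz => hp.2 (by rw [hfe, hz])⟩
    · exact (hp.2 (hfix p hp')).elim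
  obtain ⟨μ, hμ, herg, hadm, hph, hH⟩ := hmeas P h hek
  obtain ⟨μ', hμ', herg', hmap⟩ := thm_lower Sph Al f nmM _ hcM μ hμ herg (by rwa [himgM])
  obtain ⟨R, hR⟩ := hC
  have hz0 : (f : Sph → Sph) (e (R, 0)) = e (R, 0) := by
    rw [hfe, hR]
    exact (le_abs_self R).trans (by simpa using norm_fst_le ((R, 0) : ℝ × ℝ))
  refine hM Sph f hfm _ hz0 h hpos hent μ' hμ' herg' ?_ Al (fun p => nmM p 0) ?_ ?_ (H Sph f)
  · intro N
    obtain ⟨Q, hQ, g, hg, hg'⟩ := hph N
    refine ⟨Q, hQ, g ∘ nmM, fun a => hcM.meas (hg a), ?_⟩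
    rw [← hmap] at hg'
    filter_upwards [ae_of_ae_map hcM.meas.aemeasurable hg'] with z hz
    simpa [hcM.equiv] using hz
  · intro a
    exact ((measurable_pi_apply 0).comp hcM.meas) (MeasurableSet.of_discrete (s := {a}))
  · intro n
    refine (hH n).trans (le_of_eq ?_)
    unfold Hn
    refine Finset.sum_congr rfl fun w _ => ?_
    have hsc : ∀ (i : ℕ) (z : Sph), nmM ((f : Sph → Sph)^[i] z) = shift^[i] (nmM z) :=
      fun i z => (Function.Semiconj.iterate_right (f := nmM) hcM.equiv i) z
    have hms : MeasurableSet {σ : ℤ → Al | ∀ i : Fin n, (shift^[(i : ℕ)] σ) 0 = w i} := by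
      rw [Set.ofPred_forall]
      refine MeasurableSet.iInter fun i => ?_
      exact ((measurable_pi_apply 0).comp (measurable_shift.iterate i))
        (MeasurableSet.of_discrete (s := {w i}))
    rw [← hmap, Measure.map_apply hcM.meas hms]
    simp only [hsc, Set.preimage_ofPred_eq]

end Pool.Agent.H674Z.Mk
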