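import Mathlib

/-! Definitions for regular maps between bounded degree graphs. -/

set_option autoImplicit false

namespace Pool.Agent.H674Z.Reg

open UpperHalfPlane

/-- The graph has bounded degree. -/
def BddDeg {V : Type*} (G : SimpleGraph V) : Prop :=
  ∃ Δ : ℕ, ∀ v, (G.neighborSet v).encard ≤ Δ

/-- A regular map: coarsely Lipschitz for the path metrics, with uniformly bounded fibres. -/
def IsRegularMap {V W : Type*} (G : SimpleGraph V) (H : SimpleGraph W) (f : V → W) : Prop :=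
  ∃ κ : ℝ, 1 ≤ κ ∧ (∀ x x', (H.dist (f x) (f x') : ℝ) ≤ κ * G.dist x x' + κ) ∧
    ∀ z, (f ⁻¹' {z}).Finite ∧ ((f ⁻¹' {z}).ncard : ℝ) ≤ κ

/-- Uniformly subexponential growth of closed balls. -/
def SubexpGrowth {V : Type*} (Y : SimpleGraph V) : Prop :=
  ∀ ε : ℝ, 0 < ε → ∃ C : ℝ, ∀ (y : V) (r : ℝ), 0 ≤ r →
    (({y' | (Y.dist y y' : ℝ) ≤ r} : Set V).ncard : ℝ) ≤ C * Real.exp (ε * r)

/-- The vertex set of the graph, with its path metric, is quasi-isometric to the hyperbolic plane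
(the upper half-plane with its hyperbolic metric). -/
def QuasiIsomH2 {V : Type*} (X : SimpleGraph V) : Prop :=
  ∃ (q : V → ℍ) (A B : ℝ), 1 ≤ A ∧ 0 ≤ B ∧
    (∀ x x', (X.dist x x' : ℝ) / A - B ≤ dist (q x) (q x') ∧
      dist (q x) (q x') ≤ A * X.dist x x' + B) ∧
    ∀ z : ℍ, ∃ x, dist (q x) z ≤ B

end Pool.Agent.H674Z.Reg
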